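import Pool.Agent.H17.TW.Defs

/-!
# Decoding is Borel; Borel families
-/

set_option autoImplicit false

namespace Pool.H17.TW

open Pool.H17.TV

/-- `Str a` carries the product σ-algebra (it is the Borel σ-algebra of the product topology). -/
theorem borel_str (a : ℕ → ℕ) :
    @BorelSpace (Str a) inferInstance inferInstance := by
  infer_instance

theorem decM_coord (a : ℕ → ℕ) (m : ℕ) (t : Fin (a m) → ℕ) :
    Measurable (fun S : Str a => S m t = true) := by
  have h1 : Measurable (fun S : Str a => S m t) :=
    (measurable_pi_apply t).comp (measurable_pi_apply m)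
  exact measurableSet_setOfPred.mp (h1 (measurableSet_singleton true))

open Classical in
theorem decM_count (n : ℕ) (x : ℕ) :
    Measurable (fun S : Str aS => Nat.count ((ofStr S).L n) x) := by
  induction x with
  | zero => simp only [Nat.count_zero]; exact measurable_const
  | succ x ih =>
    simp only [Nat.count_succ]
    refine ih.add (Measurable.ite ?_ measurable_const measurable_const)
    exact measurableSet_setOfPred.mpr (decM_coord aS (2 * eU (.inl n)) (fun _ => x))

theorem decM_Kth (k x : ℕ) : Measurable (fun S : Str aS => Kth (ofStr S) k x) := by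
  classical
  refine Measurable.and (decM_coord aS (2 * eU (.inl 1)) (fun _ => x)) ?_
  exact measurableSet_setOfPred.mp ((decM_count 1 x) (measurableSet_singleton k))

/-- The sets `{S | (ofStr S).L n x}` etc. are clopen; `Nat.count (T.L 1) x` is a finite sum, so
`{S | Kth (ofStr S) k x}` is Borel; the quantifiers `∃ s`, `∃ x`, `∀ i : Fin (a m)` are countable.
A map to `Bool` is measurable when the preimage of `true` is. -/
theorem dec_meas (a : ℕ → ℕ) : Measurable (fun S : Str aS => dec a (ofStr S)) := by
  classical
  refine measurable_pi_iff.mpr fun m => measurable_pi_iff.mpr fun t => ?_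
  refine measurable_to_bool ?_
  have key : Measurable (fun S : Str aS => ∃ s, (ofStr S).L (a m) s ∧ (ofStr S).R m s ∧
      ∀ i : Fin (a m), ∃ x, Kth (ofStr S) (t i) x ∧ (ofStr S).E i s x) := by
    refine Measurable.exists fun s => ?_
    refine Measurable.and (decM_coord aS (2 * eU (.inl (a m))) (fun _ => s)) ?_
    refine Measurable.and (decM_coord aS (2 * eU (.inr (.inl m))) (fun _ => s)) ?_
    refine Measurable.forall fun i => Measurable.exists fun x => ?_
    exact Measurable.and (decM_Kth (t i) x)
      (decM_coord aS (2 * eB (some i) + 1) (fun j => if j.val = 0 then s else x))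
  have hset : (fun S : Str aS => dec a (ofStr S) m t) ⁻¹' {true} =
      {S : Str aS | ∃ s, (ofStr S).L (a m) s ∧ (ofStr S).R m s ∧
      ∀ i : Fin (a m), ∃ x, Kth (ofStr S) (t i) x ∧ (ofStr S).E i s x} := by
    ext S
    simp [dec]
  rw [hset]
  exact measurableSet_setOfPred.mpr key

end Pool.H17.TW
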