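import Pool.Agent.H17.TW.Main
import Pool.Agent.H17.TV.WidthDefs

/-!
# Restatement with the set of free variables
-/

set_option autoImplicit false

namespace Pool.H17.TW

open Pool.H17.TV

theorem freeIn_iff {a : ℕ → ℕ} (φ : Fml a) : ∀ s : Set ℕ, FreeIn s φ ↔ fv φ ⊆ s := by
  induction φ with
  | rel n t =>
    intro s
    simp only [FreeIn, fv, Set.range_subset_iff]
  | eq i j =>
    intro s
    simp only [FreeIn, fv, Set.insert_subset_iff, Set.singleton_subset_iff]
  | neg φ ih => exact ih
  | conj φ ih =>
    intro s
    simp only [FreeIn, fv]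
    constructor
    · rintro h i ⟨k, hk⟩
      exact (ih k s).1 (h k) hk
    · intro h k
      exact (ih k s).2 fun i hi => h ⟨k, hi⟩
  | ex i φ ih =>
    intro s
    simp only [FreeIn, fv]
    rw [ih]
    constructor
    · rintro h j ⟨hj, hji⟩
      rcases h hj with h' | h'
      · exact absurd h' hji
      · exact h'
    · intro h j hj
      by_cases hji : j = i
      · exact Or.inl hji
      · exact Or.inr (h ⟨hj, hji⟩)

theorem sentence_iff {a : ℕ → ℕ} (φ : Fml a) : Sentence φ ↔ fv φ = ∅ := by
  rw [Sentence, freeIn_iff, Set.subset_empty_iff]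

theorem qr_iff {a : ℕ → ℕ} (φ : Fml a) : ∀ k : ℕ, QRLe k φ ↔ QRank k φ := by
  induction φ with
  | rel n t => intro k; cases k <;> simp [QRLe, QRank]
  | eq i j => intro k; cases k <;> simp [QRLe, QRank]
  | neg φ ih =>
    intro k
    cases k <;> exact ih _
  | conj φ ih =>
    intro k
    cases k <;> exact forall_congr' fun j => ih j _
  | ex i φ ih =>
    intro k
    cases k with
    | zero => simp [QRLe, QRank]
    | succ k => exact ih k

end Pool.H17.TW
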