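import Pool.Agent.H17.TW.LeC

/-!
# The theorem of Lopez-Escobar
-/

set_option autoImplicit false

namespace Pool.H17.TW

open Pool.H17.TV

/-- PROOF. Let `F` be given by `forc_meas` and `ψ = ⋁_n exs 0 n (dst n ∧ F n)`. It is a sentence.
If `M ∈ B` take a generic `g` (`gen_exists` for `u = []`); `pull M g ∈ B` by invariance (`g.symm` or
`g` is an isomorphism), so `Sat M (F n) g` for some `n` and `M ⊨ ψ` (witness: the values of `g`;
use `exs_sat`, `sat_congr`). Conversely let `Sat M (F n) w` with `w 0, ..., w (n-1)` different;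
`u = (List.range n).map w` is nodup; take a generic `g` with `ini g n = u`; then `Sat M (F n) g`
(`sat_congr`), so `pull M g ∈ B` and `M ∈ B` by invariance. Finally `M ∈ Mod ψ ↔ Sat M ψ 0`
(`mod_iff`). -/
theorem lopez_escobar {a : ℕ → ℕ} (B : Set (Str a)) (hB : @MeasurableSet (Str a) (borel (Str a)) B)
    (hinv : ∀ x y : Str a, SIso x y → x ∈ B → y ∈ B) :
    ∃ ψ : Fml a, Sentence ψ ∧ Mod ψ = B := by
  obtain ⟨F, hF, hFM⟩ := forc_meas B hB
  have hsent : Sentence (disj (fun n => exs 0 n (conj2 (dst n) (F n)))) := by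
    apply disj_free
    intro n
    have h1 : FreeIn {i | i < 0 + n} (conj2 (dst n) (F n)) := by
      rw [zero_add]
      exact conj2_free _ _ _ (dst_free n) (hF n)
    have h2 := exs_free 0 n _ h1
    have e : ({i | i < 0} : Set ℕ) = ∅ := by ext; simp
    rwa [e] at h2
  have hpull : ∀ (M : Str a) (g : Equiv.Perm ℕ), pull M g ∈ B ↔ M ∈ B := by
    intro M g
    constructor
    · exact hinv _ _ ⟨g, fun n t => rfl⟩
    · refine hinv _ _ ⟨g.symm, fun n t => ?_⟩
      simp [pull]
  refine ⟨_, hsent, ?_⟩
  ext M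
  rw [mod_iff _ hsent M (fun _ => 0), disj_sat]
  obtain ⟨D, hD, hg⟩ := hFM M
  constructor
  · rintro ⟨n, hn⟩
    obtain ⟨w, -, hw⟩ := (exs_sat M 0 n _ _).1 hn
    rw [conj2_sat, dst_sat] at hw
    obtain ⟨hw1, hw2⟩ := hw
    have hu : ((List.range n).map w).Nodup := by
      rw [List.nodup_map_iff_inj_on List.nodup_range]
      intro x hx y hy hxy
      rw [List.mem_range] at hx hy
      rcases lt_trichotomy x y with h | h | h
      · exact absurd hxy (hw1 x y h hy)
      · exact h
      · exact absurd hxy.symm (hw1 y x h hx)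
    obtain ⟨g, hg1, hg2⟩ := gen_exists D hD _ hu
    have hlen : ((List.range n).map w).length = n := by simp
    rw [hlen] at hg1
    have hgw : ∀ i, i < n → g i = w i := by
      intro i hi
      have h3 : (ini g n)[i]? = ((List.range n).map w)[i]? := by rw [hg1]
      simpa [ini, hi] using h3
    have h4 : Sat M (F n) (fun i => g i) :=
      (sat_congr M (F n) _ (hF n) _ _ (fun i hi => hgw i hi)).2 hw2
    exact (hpull M g).1 ((hg g hg2).2 ⟨n, h4⟩)
  · intro hM
    obtain ⟨g, -, hg2⟩ := gen_exists D hD [] List.nodup_nil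
    obtain ⟨n, hn⟩ := (hg g hg2).1 ((hpull M g).2 hM)
    refine ⟨n, (exs_sat M 0 n _ _).2 ⟨fun i => if i < n then g i else 0, ?_, ?_⟩⟩
    · intro i hi
      have : ¬ i < n := by omega
      simp [this]
    · rw [conj2_sat, dst_sat]
      constructor
      · intro k l hkl hl
        have hk : k < n := hkl.trans hl
        simp only [hk, hl, if_true]
        intro h
        exact absurd (g.injective h) hkl.ne
      · refine (sat_congr M (F n) _ (hF n) _ _ (fun i hi => ?_)).1 hn
        have hi' : i < n := hi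
        simp [hi']

/-- Induction on the formula: `{M | Sat M φ v}` is Borel for every `v`. -/
theorem sat_borel {a : ℕ → ℕ} (φ : Fml a) (v : ℕ → ℕ) :
    @MeasurableSet (Str a) (borel (Str a)) {M | Sat M φ v} := by
  let _ : MeasurableSpace (Str a) := borel (Str a)
  have : BorelSpace (Str a) := ⟨rfl⟩
  change MeasurableSet {M : Str a | Sat M φ v}
  induction φ generalizing v with
  | rel n t =>
    have hc : Continuous fun M : Str a => M n (fun i => v (t i)) :=
      (continuous_apply (fun i => v (t i))).comp (continuous_apply n)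
    have : {M : Str a | Sat M (.rel n t) v} =
        (fun M : Str a => M n (fun i => v (t i))) ⁻¹' {true} := by
      ext M; rfl
    rw [this]
    exact ((isOpen_discrete _).preimage hc).measurableSet
  | eq i j =>
    have : {M : Str a | Sat M (.eq i j) v} = {_M : Str a | v i = v j} := rfl
    rw [this]
    exact MeasurableSet.const _
  | neg φ ih =>
    have : {M : Str a | Sat M (.neg φ) v} = {M : Str a | Sat M φ v}ᶜ := rfl
    rw [this]
    exact (ih v).compl
  | conj φ ih =>
    have : {M : Str a | Sat M (.conj φ) v} = ⋂ k, {M : Str a | Sat M (φ k) v} := by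
      ext M; simp [Sat]
    rw [this]
    exact MeasurableSet.iInter fun k => ih k v
  | ex i φ ih =>
    have : {M : Str a | Sat M (.ex i φ) v} =
        ⋃ x : ℕ, {M : Str a | Sat M φ (Function.update v i x)} := by
      ext M; simp [Sat]
    rw [this]
    exact MeasurableSet.iUnion fun x => ih _

theorem mod_borel {a : ℕ → ℕ} (ψ : Fml a) (hψ : Sentence ψ) :
    @MeasurableSet (Str a) (borel (Str a)) (Mod ψ) := by
  have : Mod ψ = {M | Sat M ψ 0} := by
    ext M
    exact mod_iff ψ hψ M 0
  rw [this]
  exact sat_borel ψ 0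

theorem mod_inv {a : ℕ → ℕ} (ψ : Fml a) (x y : Str a) (h : SIso x y) (hx : x ∈ Mod ψ) :
    y ∈ Mod ψ := by
  obtain ⟨σ, hσ⟩ := h
  intro v
  have h1 := (sat_iso x y σ hσ ψ (fun i => σ.symm (v i))).2 (hx _)
  simpa using h1

end Pool.H17.TW
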