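import Pool.Agent.H17.TW.Free

/-!
# The axioms are invariant under isomorphism
-/

set_option autoImplicit false

namespace Pool.H17.TW

open Pool.H17.TV

/-- An isomorphic structure is a transported one. -/
theorem axIso_eq_map {β γ : Type} {T : TS β} {T' : TS γ} (σ : β ≃ γ)
    (hL : ∀ n x, T'.L n (σ x) ↔ T.L n x) (hR : ∀ n x, T'.R n (σ x) ↔ T.R n x)
    (hP : ∀ p x, T'.P p (σ x) ↔ T.P p x) (hX : ∀ x y, T'.X (σ x) (σ y) ↔ T.X x y)
    (hE : ∀ j x y, T'.E j (σ x) (σ y) ↔ T.E j x y) : T' = TS.map σ T := by
  rcases T' with ⟨L', R', P', X', E'⟩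
  simp only [TS.map, TS.mk.injEq]
  refine ⟨?_, ?_, ?_, ?_, ?_⟩
  · funext n x
    exact propext (by simpa using hL n (σ.symm x))
  · funext n x
    exact propext (by simpa using hR n (σ.symm x))
  · funext n x
    exact propext (by simpa using hP n (σ.symm x))
  · funext x y
    exact propext (by simpa using hX (σ.symm x) (σ.symm y))
  · funext j x y
    exact propext (by simpa using hE j (σ.symm x) (σ.symm y))

/-- The axioms hold in a transported structure. -/
theorem axIso_map {a : ℕ → ℕ} (ψ : Fml a) {β γ : Type} {T : TS β} (σ : β ≃ γ)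
    (hT : Ax ψ T) : Ax ψ (TS.map σ T) := by
  have ex : ∀ {p : β → Prop}, (∃ z, p (σ.symm z)) ↔ ∃ z, p z := fun {p} =>
    (σ.symm.surjective.exists (p := p)).symm
  constructor
  case len => exact fun x => hT.len (σ.symm x)
  case len' => exact fun n m h x => hT.len' n m h (σ.symm x)
  case emp => exact (ex (p := fun x => T.L 0 x)).2 hT.emp
  case emp' => exact fun x y hx hy => σ.symm.injective (hT.emp' _ _ hx hy)
  case ent => exact fun j n h x hx =>
    (ex (p := fun y => T.E j (σ.symm x) y)).2 (hT.ent j n h _ hx)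
  case ent' => exact fun j x y h => hT.ent' j _ _ h
  case ent'' => exact fun j n h x y => hT.ent'' j n h _ _
  case entu => exact fun j x y z h h' => σ.symm.injective (hT.entu j _ _ _ h h')
  case one => exact fun x hx => hT.one _ hx
  case extn => exact fun n x y hx hy h => σ.symm.injective (hT.extn n _ _ hx hy
    (fun j hj => (ex (p := fun z => T.E j (σ.symm x) z ∧ T.E j (σ.symm y) z)).1 (h j hj)))
  case ext => exact fun n x y hx hy =>
    (ex (p := fun z => T.X (σ.symm x) z ∧ T.E n z (σ.symm y))).2 (hT.ext n _ _ hx hy)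
  case extd =>
    intro n x y hx
    refine (hT.extd n _ _ hx).trans (and_congr Iff.rfl (forall_congr' fun j =>
      forall_congr' fun _ => ?_))
    exact (ex (p := fun z => T.E j (σ.symm x) z ∧ T.E j (σ.symm y) z)).symm
  case rel => exact fun m x h => hT.rel m _ h
  case pln => exact fun p x h => hT.pln p _ h
  case pax =>
    intro p
    have h := hT.pax p
    cases hf : (nd ψ p).f with
    | rel m t =>
      simp only [PAx, hf] at h ⊢
      intro x y hx hy hxy
      refine h (σ.symm x) (σ.symm y) hx hy (fun i => ?_)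
      exact (ex (p := fun z => T.E ((nd ψ p).env (t i)) (σ.symm x) z ∧
        T.E i (σ.symm y) z)).1 (hxy i)
    | eq i j =>
      simp only [PAx, hf] at h ⊢
      intro x hx
      refine (h (σ.symm x) hx).trans ?_
      exact (ex (p := fun z => T.E ((nd ψ p).env i) (σ.symm x) z ∧
        T.E ((nd ψ p).env j) (σ.symm x) z)).symm
    | neg φ =>
      simp only [PAx, hf] at h ⊢
      exact fun x hx => h (σ.symm x) hx
    | conj φ =>
      simp only [PAx, hf] at h ⊢
      exact fun x hx => h (σ.symm x) hx
    | ex i φ =>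
      simp only [PAx, hf] at h ⊢
      intro x hx
      refine (h (σ.symm x) hx).trans ?_
      exact (ex (p := fun y => T.X (σ.symm x) y ∧ T.P (p ++ [0]) y)).symm
  case root => exact fun x hx => hT.root _ hx
  case inf =>
    intro n
    obtain ⟨x, hx, h⟩ := hT.inf n
    refine ⟨σ x, ?_, fun i j hij hj hz => h i j hij hj ?_⟩
    · simpa [TS.map] using hx
    · obtain ⟨z, hz1, hz2⟩ := hz
      refine ⟨σ.symm z, ?_, ?_⟩
      · simpa [TS.map] using hz1
      · simpa [TS.map] using hz2

/-- The axioms are invariant under isomorphism. (All 17 fields; for `pax` split on `(nd ψ p).f`;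
every quantifier over elements is transported by `σ`, i.e. `σ.surjective.forall`,
`σ.surjective.exists`.) -/
theorem ax_iso {a : ℕ → ℕ} (ψ : Fml a) {β γ : Type} {T : TS β} {T' : TS γ} (h : TIso T T')
    (hT : Ax ψ T) : Ax ψ T' := by
  obtain ⟨σ, hL, hR, hP, hX, hE⟩ := h
  rw [axIso_eq_map σ hL hR hP hX hE]
  exact axIso_map ψ σ hT

end Pool.H17.TW
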