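import Pool.Agent.H17.TW.Defs

/-!
# Structures for `aS` and `TS ℕ` are the same thing
-/

set_option autoImplicit false

namespace Pool.H17.TW

open Pool.H17.TV

open Classical in
/-- the structure for `aS` coding `T` -/
noncomputable def toStr (T : TS ℕ) : Str aS := fun n t =>
  if n % 2 = 0 then
    match eU.symm (n / 2) with
    | .inl k => decide (T.L k (t ⟨0, Nat.succ_pos _⟩))
    | .inr (.inl k) => decide (T.R k (t ⟨0, Nat.succ_pos _⟩))
    | .inr (.inr p) => decide (T.P p (t ⟨0, Nat.succ_pos _⟩))
  else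
    match eB.symm (n / 2) with
    | none => decide (T.X (t ⟨0, Nat.succ_pos _⟩) (t (Fin.last _)))
    | some j => decide (T.E j (t ⟨0, Nat.succ_pos _⟩) (t (Fin.last _)))

theorem ofStr_toStr (T : TS ℕ) : ofStr (toStr T) = T := by
  have h2 : ∀ k : ℕ, (2 * k + 1) / 2 = k := fun k => by omega
  cases T with
  | mk L R P X E =>
    unfold ofStr toStr
    simp only [TS.mk.injEq]
    refine ⟨?_, ?_, ?_, ?_, ?_⟩
    · funext n x
      simp
    · funext n x
      simp
    · funext p x
      simp
    · funext x y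
      have h3 : ¬ (2 * eB none + 1) % 2 = 0 := by omega
      have h4 : eB.symm ((2 * eB none + 1) / 2) = none := by rw [h2, eB.symm_apply_apply]
      rw [if_neg h3, h4]
      apply propext
      rw [@decide_eq_true_iff _ (Classical.propDecidable _)]
      change X x (if (2 * eB none + 1) % 2 = 0 then x else y) ↔ X x y
      rw [if_neg h3]
    · funext j x y
      have h3 : ¬ (2 * eB (some j) + 1) % 2 = 0 := by omega
      have h4 : eB.symm ((2 * eB (some j) + 1) / 2) = some j := by
        rw [h2, eB.symm_apply_apply]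
      rw [if_neg h3, h4]
      apply propext
      rw [@decide_eq_true_iff _ (Classical.propDecidable _)]
      change E j x (if (2 * eB (some j) + 1) % 2 = 0 then x else y) ↔ E j x y
      rw [if_neg h3]

theorem code_even (n : ℕ) (h : n % 2 = 0) (t : Fin (aS n) → ℕ) :
    t = fun _ => t ⟨0, Nat.succ_pos _⟩ := by
  funext i
  congr 1
  apply Fin.ext
  have h1 : i.val < n % 2 + 1 := i.2
  change i.val = 0
  omega

theorem code_odd (n : ℕ) (h : n % 2 = 1) (t : Fin (aS n) → ℕ) :
    t = fun i => if i.val = 0 then t ⟨0, Nat.succ_pos _⟩ else t (Fin.last _) := by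
  funext i
  have h1 : i.val < n % 2 + 1 := i.2
  by_cases h0 : i.val = 0
  · rw [if_pos h0]
    congr 1
    exact Fin.ext h0
  · rw [if_neg h0]
    congr 1
    apply Fin.ext
    change i.val = n % 2
    omega

/-- Isomorphisms are the same (same `σ`). For even `n = 2 * eU k` a tuple `t : Fin (aS n) → ℕ` is
constant, for odd `n = 2 * eB k + 1` it is `fun i => if i.val = 0 then x else y`. Equality of the
Boolean values is equivalence of `_ = true`. -/
theorem siso_iff (S S' : Str aS) : SIso S S' ↔ TIso (ofStr S) (ofStr S') := by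
  constructor
  · rintro ⟨σ, hσ⟩
    have hu : ∀ (n x : ℕ), S' n (fun _ => σ x) = S n (fun _ => x) := fun n x => hσ n _
    have hb : ∀ (n x y : ℕ), S' n (fun i => if i.val = 0 then σ x else σ y) =
        S n (fun i => if i.val = 0 then x else y) := by
      intro n x y
      rw [← hσ n]
      congr 1
      funext i
      split_ifs <;> rfl
    refine ⟨σ, fun n x => ?_, fun n x => ?_, fun p x => ?_, fun x y => ?_, fun j x y => ?_⟩
    · change S' _ (fun _ => σ x) = true ↔ S _ (fun _ => x) = true
      rw [hu]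
    · change S' _ (fun _ => σ x) = true ↔ S _ (fun _ => x) = true
      rw [hu]
    · change S' _ (fun _ => σ x) = true ↔ S _ (fun _ => x) = true
      rw [hu]
    · change S' _ (fun i => if i.val = 0 then σ x else σ y) = true ↔
        S _ (fun i => if i.val = 0 then x else y) = true
      rw [hb]
    · change S' _ (fun i => if i.val = 0 then σ x else σ y) = true ↔
        S _ (fun i => if i.val = 0 then x else y) = true
      rw [hb]
  · rintro ⟨σ, hL, hR, hP, hX, hE⟩
    have hu : ∀ (c : ℕ ⊕ ℕ ⊕ List ℕ) (x : ℕ),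
        S' (2 * eU c) (fun _ => σ x) = S (2 * eU c) (fun _ => x) := by
      intro c x
      rw [Bool.eq_iff_iff]
      rcases c with k | k | p
      · exact hL k x
      · exact hR k x
      · exact hP p x
    have hb : ∀ (c : Option ℕ) (x y : ℕ),
        S' (2 * eB c + 1) (fun i => if i.val = 0 then σ x else σ y) =
        S (2 * eB c + 1) (fun i => if i.val = 0 then x else y) := by
      intro c x y
      rw [Bool.eq_iff_iff]
      rcases c with _ | j
      · exact hX x y
      · exact hE j x y
    refine ⟨σ, fun n t => ?_⟩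
    rcases Nat.mod_two_eq_zero_or_one n with hn | hn
    · rw [code_even n hn t]
      obtain ⟨c, hc⟩ := eU.surjective (n / 2)
      obtain rfl : n = 2 * eU c := by omega
      exact hu c _
    · have h1 : (fun i => σ (t i)) = fun i => if i.val = 0 then σ (t ⟨0, Nat.succ_pos _⟩) else
          σ (t (Fin.last _)) := by
        funext i
        rw [code_odd n hn t]
        simp only
        split_ifs <;> simp_all
      obtain ⟨c, hc⟩ := eB.surjective (n / 2)
      obtain rfl : n = 2 * eB c + 1 := by omega
      rw [h1, hb]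
      congr 1
      exact (code_odd _ hn t).symm

theorem tiso_refl {β : Type} (T : TS β) : TIso T T :=
  ⟨Equiv.refl β, fun _ _ => Iff.rfl, fun _ _ => Iff.rfl, fun _ _ => Iff.rfl, fun _ _ => Iff.rfl,
    fun _ _ _ => Iff.rfl⟩

theorem tiso_symm {β γ : Type} {T : TS β} {T' : TS γ} (h : TIso T T') : TIso T' T := by
  obtain ⟨σ, hL, hR, hP, hX, hE⟩ := h
  refine ⟨σ.symm, fun n x => ?_, fun n x => ?_, fun p x => ?_, fun x y => ?_, fun j x y => ?_⟩
  · rw [← hL, σ.apply_symm_apply]
  · rw [← hR, σ.apply_symm_apply]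
  · rw [← hP, σ.apply_symm_apply]
  · rw [← hX, σ.apply_symm_apply, σ.apply_symm_apply]
  · rw [← hE, σ.apply_symm_apply, σ.apply_symm_apply]

theorem tiso_trans {β γ δ : Type} {T : TS β} {T' : TS γ} {T'' : TS δ} (h : TIso T T')
    (h' : TIso T' T'') : TIso T T'' := by
  obtain ⟨σ, hL, hR, hP, hX, hE⟩ := h
  obtain ⟨τ, hL', hR', hP', hX', hE'⟩ := h'
  exact ⟨σ.trans τ, fun n x => (hL' n _).trans (hL n x), fun n x => (hR' n _).trans (hR n x),
    fun p x => (hP' p _).trans (hP p x), fun x y => (hX' _ _).trans (hX x y),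
    fun j x y => (hE' j _ _).trans (hE j x y)⟩

theorem tiso_map {β γ : Type} (e : β ≃ γ) (T : TS β) : TIso T (T.map e) := by
  refine ⟨e, fun n x => ?_, fun n x => ?_, fun p x => ?_, fun x y => ?_, fun j x y => ?_⟩ <;>
    simp [TS.map]

theorem siso_symm {a : ℕ → ℕ} {M N : Str a} (h : SIso M N) : SIso N M := by
  obtain ⟨σ, hσ⟩ := h
  refine ⟨σ.symm, fun n t => ?_⟩
  rw [← hσ n]
  simp

theorem siso_trans {a : ℕ → ℕ} {M N K : Str a} (h : SIso M N) (h' : SIso N K) : SIso M K := by
  obtain ⟨σ, hσ⟩ := h
  obtain ⟨τ, hτ⟩ := h'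
  exact ⟨σ.trans τ, fun n t => (hτ n (fun i => σ (t i))).trans (hσ n t)⟩

end Pool.H17.TW
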