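import Pool.Agent.H17.TW.Free

/-!
# Decoding: tuples in a model of the axioms
-/

set_option autoImplicit false

namespace Pool.H17.TW

open Pool.H17.TV

/-- By `inf` (and `ent`, `ent'`) there are at least `n` tuples of length one, for every `n`. -/
theorem inf_one {a : ℕ → ℕ} (ψ : Fml a) (T : TS ℕ) (h : Ax ψ T) : {x | T.L 1 x}.Infinite := by
  intro hfin
  obtain ⟨x, hx, hd⟩ := h.inf (hfin.toFinset.card + 1)
  have hex : ∀ j : Fin (hfin.toFinset.card + 1), ∃ y, T.E j.val x y := fun j =>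
    h.ent j.val _ j.isLt x hx
  choose y hy using hex
  have hinj : Function.Injective y := by
    intro i j hij
    rcases lt_trichotomy i.val j.val with hlt | heq | hgt
    · exact absurd ⟨y i, hy i, by rw [hij]; exact hy j⟩ (hd i.val j.val hlt j.isLt)
    · exact Fin.ext heq
    · exact absurd ⟨y i, by rw [hij]; exact hy j, hy i⟩ (hd j.val i.val hgt i.isLt)
  have hsub : Finset.univ.image y ⊆ hfin.toFinset := by
    intro z hz
    obtain ⟨i, -, rfl⟩ := Finset.mem_image.1 hz
    rw [Set.Finite.mem_toFinset]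
    exact h.ent' i.val x (y i) (hy i)
  have hc := Finset.card_le_card hsub
  rw [Finset.card_image_of_injective _ hinj, Finset.card_univ, Fintype.card_fin] at hc
  omega

theorem kth_exists {a : ℕ → ℕ} (ψ : Fml a) (T : TS ℕ) (h : Ax ψ T) (k : ℕ) : ∃ x, Kth T k x := by
  classical
  have hinf := inf_one ψ T h
  refine ⟨Nat.nth (T.L 1) k, Nat.nth_mem_of_infinite hinf k, ?_⟩
  convert Nat.count_nth_of_infinite hinf k

theorem kth_unique (T : TS ℕ) (k x y : ℕ) (hx : Kth T k x) (hy : Kth T k y) : x = y := by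
  classical
  refine Nat.count_injective (p := T.L 1) hx.1 hy.1 ?_
  have h1 := hx.2
  have h2 := hy.2
  convert h1.trans h2.symm

theorem kth_unique' (T : TS ℕ) (k l x : ℕ) (hx : Kth T k x) (hy : Kth T l x) : k = l := by
  exact hx.2.symm.trans hy.2

theorem kth_of_one (T : TS ℕ) (x : ℕ) (hx : T.L 1 x) : ∃ k, Kth T k x := by
  exact ⟨_, hx, rfl⟩

/-- `x` codes the list `l` -/
def Cod (T : TS ℕ) (l : List ℕ) (x : ℕ) : Prop :=
  T.L l.length x ∧ ∀ j (h : j < l.length), ∃ z, Kth T l[j] z ∧ T.E j x z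

theorem DecA_len_unique {a : ℕ → ℕ} (ψ : Fml a) (T : TS ℕ) (h : Ax ψ T) {n m x : ℕ}
    (hn : T.L n x) (hm : T.L m x) : n = m := by
  by_contra hne
  exact h.len' n m hne x ⟨hn, hm⟩

/-- Induction on `l` from the right, with `ext` and `extd` (and `emp`). -/
theorem cod_exists {a : ℕ → ℕ} (ψ : Fml a) (T : TS ℕ) (h : Ax ψ T) (l : List ℕ) :
    ∃ x, Cod T l x := by
  induction l using List.reverseRecOn with
  | nil =>
    obtain ⟨x, hx⟩ := h.emp
    exact ⟨x, hx, fun j hj => absurd hj (by simp)⟩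
  | append_singleton l k ih =>
    obtain ⟨x, hx, hxe⟩ := ih
    obtain ⟨y, hy⟩ := kth_exists ψ T h k
    obtain ⟨z, hz, hze⟩ := h.ext _ x y hx hy.1
    obtain ⟨hL, hE⟩ := (h.extd _ x z hx).1 hz
    refine ⟨z, by simpa using hL, ?_⟩
    intro j hj
    rw [List.length_append, List.length_singleton] at hj
    rcases Nat.lt_or_ge j l.length with hlt | hge
    · obtain ⟨w, hw1, hw2⟩ := hE j hlt
      obtain ⟨w', hw1', hw2'⟩ := hxe j hlt
      have := h.entu j x w w' hw1 hw2'
      subst this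
      refine ⟨w, ?_, hw2⟩
      rw [List.getElem_append_left hlt]
      exact hw1'
    · have hjl : j = l.length := by omega
      subst hjl
      refine ⟨y, ?_, hze⟩
      rw [List.getElem_append_right (le_refl _)]
      simpa using hy

/-- by `extn` -/
theorem cod_unique {a : ℕ → ℕ} (ψ : Fml a) (T : TS ℕ) (h : Ax ψ T) (l : List ℕ) (x y : ℕ)
    (hx : Cod T l x) (hy : Cod T l y) : x = y := by
  refine h.extn l.length x y hx.1 hy.1 ?_
  intro j hj
  obtain ⟨z, hz, hzE⟩ := hx.2 j hj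
  obtain ⟨w, hw, hwE⟩ := hy.2 j hj
  have := kth_unique T _ z w hz hw
  subst this
  exact ⟨z, hzE, hwE⟩

/-- every element codes exactly one list (`len`, `len'`, `ent`, `ent'`, `entu`) -/
theorem cod_of {a : ℕ → ℕ} (ψ : Fml a) (T : TS ℕ) (h : Ax ψ T) (x : ℕ) : ∃ l, Cod T l x := by
  obtain ⟨n, hn⟩ := h.len x
  have hex : ∀ j : Fin n, ∃ k y, Kth T k y ∧ T.E j.val x y := by
    intro j
    obtain ⟨y, hy⟩ := h.ent j.val n j.isLt x hn
    obtain ⟨k, hk⟩ := kth_of_one T y (h.ent' _ _ _ hy)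
    exact ⟨k, y, hk, hy⟩
  choose k y hk hy using hex
  refine ⟨List.ofFn k, by simpa using hn, ?_⟩
  intro j hj
  have hj' : j < n := by simpa using hj
  refine ⟨y ⟨j, hj'⟩, ?_, hy ⟨j, hj'⟩⟩
  have := hk ⟨j, hj'⟩
  simpa using this

theorem cod_unique' {a : ℕ → ℕ} (ψ : Fml a) (T : TS ℕ) (h : Ax ψ T) (l l' : List ℕ) (x : ℕ)
    (hx : Cod T l x) (hy : Cod T l' x) : l = l' := by
  have hlen : l.length = l'.length := DecA_len_unique ψ T h hx.1 hy.1
  refine List.ext_getElem hlen ?_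
  intro j h1 h2
  obtain ⟨z, hz, hzE⟩ := hx.2 j h1
  obtain ⟨w, hw, hwE⟩ := hy.2 j h2
  have := h.entu j x z w hzE hwE
  subst this
  exact kth_unique' T _ _ z hz hw

/-- `l ↦` the element coding `l` -/
theorem kap_exists {a : ℕ → ℕ} (ψ : Fml a) (T : TS ℕ) (h : Ax ψ T) :
    ∃ κ : List ℕ ≃ ℕ, ∀ l, Cod T l (κ l) := by
  choose f hf using cod_exists ψ T h
  have hb : Function.Bijective f := by
    constructor
    · intro l l' hll
      refine cod_unique' ψ T h l l' (f l) (hf l) ?_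
      rw [hll]
      exact hf l'
    · intro x
      obtain ⟨l, hl⟩ := cod_of ψ T h x
      exact ⟨l, cod_unique ψ T h l _ _ (hf l) hl⟩
  exact ⟨Equiv.ofBijective f hb, fun l => hf l⟩

/-- extension: by `extd`, `ext` -/
theorem cod_X {a : ℕ → ℕ} (ψ : Fml a) (T : TS ℕ) (h : Ax ψ T) (l l' : List ℕ) (x y : ℕ)
    (hx : Cod T l x) (hy : Cod T l' y) : T.X x y ↔ ∃ k, l' = l ++ [k] := by
  rw [h.extd _ x y hx.1]
  constructor
  · rintro ⟨hL, hE⟩
    have hlen : l'.length = l.length + 1 := DecA_len_unique ψ T h hy.1 hL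
    have hlt : l.length < l'.length := by omega
    refine ⟨l'[l.length], ?_⟩
    refine List.ext_getElem (by simp [hlen]) ?_
    intro j h1 h2
    rcases Nat.lt_or_ge j l.length with hj | hj
    · rw [List.getElem_append_left hj]
      obtain ⟨z, hz1, hz2⟩ := hE j hj
      obtain ⟨w, hw, hwE⟩ := hx.2 j hj
      obtain ⟨w', hw', hwE'⟩ := hy.2 j h1
      have e1 := h.entu j x z w hz1 hwE
      have e2 := h.entu j y z w' hz2 hwE'
      subst e1
      subst e2
      exact kth_unique' T _ _ z hw' hw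
    · have hjl : j = l.length := by omega
      subst hjl
      rw [List.getElem_append_right (le_refl _)]
      simp
  · rintro ⟨k, rfl⟩
    have hL : T.L (l.length + 1) y := by simpa using hy.1
    refine ⟨hL, ?_⟩
    intro j hj
    obtain ⟨w, hw, hwE⟩ := hx.2 j hj
    obtain ⟨w', hw', hwE'⟩ := hy.2 j (by simp; omega)
    rw [List.getElem_append_left hj] at hw'
    have := kth_unique T _ w w' hw hw'
    subst this
    exact ⟨w, hwE, hwE'⟩

/-- entries: by `ent`, `ent'`, `ent''`, `entu`, `one` -/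
theorem cod_E {a : ℕ → ℕ} (ψ : Fml a) (T : TS ℕ) (h : Ax ψ T) (j : ℕ) (l l' : List ℕ) (x y : ℕ)
    (hx : Cod T l x) (hy : Cod T l' y) : T.E j x y ↔ ∃ h : j < l.length, l' = [l[j]] := by
  constructor
  · intro hE
    have hjl : j < l.length := by
      by_contra hge
      exact h.ent'' j l.length (by omega) x y ⟨hx.1, hE⟩
    refine ⟨hjl, ?_⟩
    have hL1 := h.ent' j x y hE
    have hlen : l'.length = 1 := DecA_len_unique ψ T h hy.1 hL1
    obtain ⟨b, rfl⟩ := List.length_eq_one_iff.1 hlen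
    obtain ⟨z, hz, hzE⟩ := hy.2 0 (by simp)
    have e1 := h.entu 0 y z y hzE (h.one y hL1)
    obtain ⟨w, hw, hwE⟩ := hx.2 j hjl
    have e2 := h.entu j x w y hwE hE
    subst e1
    subst e2
    have := kth_unique' T _ _ _ hz hw
    simp only [List.getElem_cons_zero] at this
    rw [this]
  · rintro ⟨hjl, rfl⟩
    have hL1 : T.L 1 y := by simpa using hy.1
    obtain ⟨z, hz, hzE⟩ := hy.2 0 (by simp)
    have e1 := h.entu 0 y z y hzE (h.one y hL1)
    obtain ⟨w, hw, hwE⟩ := hx.2 j hjl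
    simp only [List.getElem_cons_zero] at hz
    have e2 := kth_unique T _ z w hz hw
    rw [← e1, e2]
    exact hwE

/-- the decoded relations -/
theorem dec_iff {a : ℕ → ℕ} (ψ : Fml a) (T : TS ℕ) (h : Ax ψ T) (m : ℕ) (t : Fin (a m) → ℕ) (x : ℕ)
    (hx : Cod T (List.ofFn t) x) : dec a T m t = true ↔ T.R m x := by
  simp only [dec, decide_eq_true_eq]
  have hxL : T.L (a m) x := by simpa using hx.1
  constructor
  · rintro ⟨s, hs, hR, hs2⟩
    have hcod : Cod T (List.ofFn t) s := by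
      refine ⟨by simpa using hs, ?_⟩
      intro j hj
      have hj' : j < a m := by simpa using hj
      obtain ⟨z, hz, hzE⟩ := hs2 ⟨j, hj'⟩
      exact ⟨z, by simpa using hz, hzE⟩
    have := cod_unique ψ T h _ s x hcod hx
    subst this
    exact hR
  · intro hR
    refine ⟨x, hxL, hR, ?_⟩
    intro i
    obtain ⟨z, hz, hzE⟩ := hx.2 i.val (by simp)
    exact ⟨z, by simpa using hz, hzE⟩

end Pool.H17.TW
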