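import Pool.Agent.H17.TW.DecA

/-!
# Decoding: truth lemma
-/

set_option autoImplicit false

namespace Pool.H17.TW

open Pool.H17.TV

/-- length of a coded list -/
theorem decB_len {a : ℕ → ℕ} (ψ : Fml a) (T : TS ℕ) (h : Ax ψ T) {l : List ℕ} {x n : ℕ}
    (hx : Cod T l x) : T.L n x ↔ l.length = n := by
  constructor
  · intro hn
    by_contra hne
    exact h.len' _ _ hne x ⟨hx.1, hn⟩
  · rintro rfl
    exact hx.1

/-- Truth lemma. PROOF. Induction on the formula `f`, for all `p, s, l, x, v`.
* `rel m t`: `T.P p x ↔ T.R m y` where `y` codes `List.ofFn (fun i => v (t i))` (axiom `pax`; the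
  entries of `x` at `env (t i)` and of `y` at `i` are both the `v (t i)`-th tuple of length one, by
  `hv` and `cod_E`), and `T.R m y ↔ dec a T m (fun i => v (t i)) = true` by `dec_iff`.
* `eq i j`: by `pax` and uniqueness of entries (`entu`) and of `Kth`.
* `neg`, `conj`: `pax`, `nd_snoc`, induction hypothesis with the same `s, l, x, v`.
* `ex i f`: `T.P p x ↔ ∃ y, T.X x y ∧ T.P (p ++ [0]) y`; the `y` with `T.X x y` are the codes of
  `l ++ [k]` (`cod_X`, `cod_of`, `cod_exists`), apply the induction hypothesis with `insert i s`,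
  `l ++ [k]`, `update v i k`. -/
theorem truth {a : ℕ → ℕ} (ψ : Fml a) (T : TS ℕ) (h : Ax ψ T) (f : Fml a) :
    ∀ (p : List ℕ) (s : Set ℕ) (l : List ℕ) (x : ℕ) (v : ℕ → ℕ), (nd ψ p).f = f → FreeIn s f →
      (∀ i ∈ s, (nd ψ p).env i < (nd ψ p).n) → l.length = (nd ψ p).n → Cod T l x →
      (∀ i ∈ s, v i = l.getD ((nd ψ p).env i) 0) → (T.P p x ↔ Sat (dec a T) f v) := by
  induction f with
  | rel m t =>
    intro p s l x v hf hs henv hl hx hv
    have hax := h.pax p
    unfold PAx at hax
    rw [hf] at hax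
    simp only at hax
    obtain ⟨y, hy⟩ := cod_exists ψ T h (List.ofFn (fun i => v (t i)))
    have hlen : (List.ofFn (fun i => v (t i))).length = a m := by simp
    have hLx : T.L (nd ψ p).n x := hl ▸ hx.1
    have hLy : T.L (a m) y := hlen ▸ hy.1
    rw [hax x y hLx hLy]
    · exact (dec_iff ψ T h m (fun i => v (t i)) y hy).symm
    · intro i
      have hti : t i ∈ s := hs i
      have hlt : (nd ψ p).env (t i) < l.length := by rw [hl]; exact henv _ hti
      obtain ⟨z, hz1, hz2⟩ := hx.2 _ hlt
      obtain ⟨z', hz1', hz2'⟩ := hy.2 i.1 (by rw [hlen]; exact i.2)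
      have e : (List.ofFn (fun i => v (t i)))[i.1]'(by rw [hlen]; exact i.2) =
          l[(nd ψ p).env (t i)] := by
        rw [List.getElem_ofFn]
        show v (t i) = _
        rw [hv _ hti, List.getD_eq_getElem _ _ hlt]
      rw [e] at hz1'
      have := kth_unique T _ _ _ hz1 hz1'
      subst this
      exact ⟨z, hz2, hz2'⟩
  | eq i j =>
    intro p s l x v hf hs henv hl hx hv
    have hax := h.pax p
    unfold PAx at hax
    rw [hf] at hax
    simp only at hax
    have hLx : T.L (nd ψ p).n x := hl ▸ hx.1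
    rw [hax x hLx]
    have hi : i ∈ s := hs.1
    have hj : j ∈ s := hs.2
    have hlti : (nd ψ p).env i < l.length := by rw [hl]; exact henv _ hi
    have hltj : (nd ψ p).env j < l.length := by rw [hl]; exact henv _ hj
    obtain ⟨z, hz1, hz2⟩ := hx.2 _ hlti
    obtain ⟨w, hw1, hw2⟩ := hx.2 _ hltj
    show _ ↔ v i = v j
    rw [hv _ hi, hv _ hj, List.getD_eq_getElem _ _ hlti, List.getD_eq_getElem _ _ hltj]
    constructor
    · rintro ⟨u, hu1, hu2⟩
      have e1 := h.entu _ _ _ _ hz2 hu1
      have e2 := h.entu _ _ _ _ hw2 hu2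
      subst e1
      subst e2
      exact kth_unique' T _ _ _ hz1 hw1
    · intro e
      rw [← e] at hw1
      have := kth_unique T _ _ _ hz1 hw1
      subst this
      exact ⟨z, hz2, hw2⟩
  | neg φ ih =>
    intro p s l x v hf hs henv hl hx hv
    have hax := h.pax p
    unfold PAx at hax
    rw [hf] at hax
    simp only at hax
    have hLx : T.L (nd ψ p).n x := hl ▸ hx.1
    rw [hax x hLx]
    have hc : nd ψ (p ++ [0]) = ⟨(nd ψ p).n, (nd ψ p).env, φ⟩ := by
      rw [nd_snoc, Node.child, hf]
    have := ih (p ++ [0]) s l x v (by rw [hc]) hs (by rw [hc]; exact henv) (by rw [hc]; exact hl)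
      hx (by rw [hc]; exact hv)
    rw [this]
    rfl
  | conj φ ih =>
    intro p s l x v hf hs henv hl hx hv
    have hax := h.pax p
    unfold PAx at hax
    rw [hf] at hax
    simp only at hax
    have hLx : T.L (nd ψ p).n x := hl ▸ hx.1
    rw [hax x hLx]
    refine forall_congr' fun k => ?_
    have hc : nd ψ (p ++ [k]) = ⟨(nd ψ p).n, (nd ψ p).env, φ k⟩ := by
      rw [nd_snoc, Node.child, hf]
    exact ih k (p ++ [k]) s l x v (by rw [hc]) (hs k) (by rw [hc]; exact henv)
      (by rw [hc]; exact hl) hx (by rw [hc]; exact hv)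
  | ex i φ ih =>
    intro p s l x v hf hs henv hl hx hv
    have hax := h.pax p
    unfold PAx at hax
    rw [hf] at hax
    simp only at hax
    have hLx : T.L (nd ψ p).n x := hl ▸ hx.1
    rw [hax x hLx]
    have hc : nd ψ (p ++ [0]) =
        ⟨(nd ψ p).n + 1, Function.update (nd ψ p).env i (nd ψ p).n, φ⟩ := by
      rw [nd_snoc, Node.child, hf]
    have key : ∀ (y k : ℕ), Cod T (l ++ [k]) y →
        (T.P (p ++ [0]) y ↔ Sat (dec a T) φ (Function.update v i k)) := by
      intro y k hy
      refine ih (p ++ [0]) (insert i s) (l ++ [k]) y (Function.update v i k) (by rw [hc]) hs ?_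
        (by rw [hc]; simp [hl]) hy ?_
      · rw [hc]
        intro i' hi'
        by_cases hii : i' = i
        · subst hii
          simp
        · have : i' ∈ s := by
            rcases hi' with h | h
            · exact absurd h hii
            · exact h
          simp only [Function.update_of_ne hii]
          exact Nat.lt_succ_of_lt (henv _ this)
      · rw [hc]
        intro i' hi'
        by_cases hii : i' = i
        · subst hii
          simp only [Function.update_self]
          rw [← hl]
          simp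
        · have : i' ∈ s := by
            rcases hi' with h | h
            · exact absurd h hii
            · exact h
          simp only [Function.update_of_ne hii]
          rw [hv _ this]
          have hlt : (nd ψ p).env i' < l.length := by rw [hl]; exact henv _ this
          rw [List.getD_eq_getElem _ _ hlt, List.getD_eq_getElem _ _ (by simp; omega)]
          rw [List.getElem_append_left hlt]
    show _ ↔ ∃ k : ℕ, Sat (dec a T) φ (Function.update v i k)
    constructor
    · rintro ⟨y, hy1, hy2⟩
      obtain ⟨l', hl'⟩ := cod_of ψ T h y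
      obtain ⟨k, rfl⟩ := (cod_X ψ T h l l' x y hx hl').1 hy1
      exact ⟨k, (key y k hl').1 hy2⟩
    · rintro ⟨k, hk⟩
      obtain ⟨y, hy⟩ := cod_exists ψ T h (l ++ [k])
      exact ⟨y, (cod_X ψ T h l _ x y hx hy).2 ⟨k, rfl⟩, (key y k hy).2 hk⟩

/-- `root`, `emp`, `truth` at the root with `s = ∅`, `l = []`. -/
theorem dec_mod {a : ℕ → ℕ} (ψ : Fml a) (hψ : Sentence ψ) (T : TS ℕ) (h : Ax ψ T) :
    dec a T ∈ Mod ψ := by
  intro v
  obtain ⟨x, hx⟩ := h.emp
  refine (truth ψ T h ψ [] ∅ [] x v rfl hψ (fun i hi => absurd hi (Set.notMem_empty i)) rfl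
    ⟨hx, fun j hj => absurd hj (Nat.not_lt_zero j)⟩
    (fun i hi => absurd hi (Set.notMem_empty i))).1 (h.root x hx)

/-- The bijection `κ` of `kap_exists` is an isomorphism: `L` by `cod_unique'`/`len'`; `R` by
`dec_iff` and axiom `rel`; `P` by axiom `pln` and `truth` (with `nd_free`); `X`, `E` by `cod_X`,
`cod_E`. -/
theorem dec_iso {a : ℕ → ℕ} (ψ : Fml a) (hψ : Sentence ψ) (T : TS ℕ) (h : Ax ψ T) :
    TIso (tup ψ (dec a T)) T := by
  obtain ⟨κ, hκ⟩ := kap_exists ψ T h
  refine ⟨κ, ?_, ?_, ?_, ?_, ?_⟩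
  · intro n l
    exact decB_len ψ T h (hκ l)
  · intro m l
    show T.R m (κ l) ↔ l.length = a m ∧ dec a T m (fun i => l.getD i 0) = true
    have key : l.length = a m → (dec a T m (fun i => l.getD i 0) = true ↔ T.R m (κ l)) := by
      intro hl
      refine dec_iff ψ T h m _ _ ?_
      have : List.ofFn (fun i : Fin (a m) => l.getD i 0) = l := by
        apply List.ext_getElem
        · simp [hl]
        · intro j h1 h2
          rw [List.getElem_ofFn, List.getD_eq_getElem _ _ h2]
      rw [this]
      exact hκ l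
    constructor
    · intro hR
      have hl := (decB_len ψ T h (hκ l)).1 (h.rel m _ hR)
      exact ⟨hl, (key hl).2 hR⟩
    · rintro ⟨hl, hd⟩
      exact (key hl).1 hd
  · intro p l
    show T.P p (κ l) ↔ l.length = (nd ψ p).n ∧ Sat (dec a T) (nd ψ p).f
      (fun i => l.getD ((nd ψ p).env i) 0)
    obtain ⟨s, hs1, hs2⟩ := nd_free ψ hψ p
    have key : l.length = (nd ψ p).n → (T.P p (κ l) ↔ Sat (dec a T) (nd ψ p).f
        (fun i => l.getD ((nd ψ p).env i) 0)) := fun hl =>
      truth ψ T h (nd ψ p).f p s l (κ l) _ rfl hs1 hs2 hl (hκ l) (fun i _ => rfl)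
    constructor
    · intro hP
      have hl := (decB_len ψ T h (hκ l)).1 (h.pln p _ hP)
      exact ⟨hl, (key hl).1 hP⟩
    · rintro ⟨hl, hd⟩
      exact (key hl).2 hd
  · intro l l'
    exact cod_X ψ T h l l' _ _ (hκ l) (hκ l')
  · intro j l l'
    exact cod_E ψ T h j l l' _ _ (hκ l) (hκ l')

end Pool.H17.TW
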