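import Pool.Agent.H17.TV.Defs

/-!
# Three variables suffice for the strong Vaught conjecture : definitions

A structure `M` is coded by the structure of all finite tuples of elements of `M`, in a fixed language
with countably many unary and countably many binary relation symbols.
-/

set_option autoImplicit false

namespace Pool.H17.TW

open Pool.H17.TV

/-- All free variables of the formula belong to `s`. -/
def FreeIn {a : ℕ → ℕ} : Set ℕ → Fml a → Prop
  | s, .rel _ t => ∀ i, t i ∈ s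
  | s, .eq i j => i ∈ s ∧ j ∈ s
  | s, .neg φ => FreeIn s φ
  | s, .conj φ => ∀ k, FreeIn s (φ k)
  | s, .ex i φ => FreeIn (insert i s) φ

/-- The formula is a sentence. -/
def Sentence {a : ℕ → ℕ} (φ : Fml a) : Prop := FreeIn ∅ φ

/-- The quantifier rank is at most `k`. -/
def QRLe {a : ℕ → ℕ} : ℕ → Fml a → Prop
  | _, .rel _ _ => True
  | _, .eq _ _ => True
  | k, .neg φ => QRLe k φ
  | k, .conj φ => ∀ j, QRLe k (φ j)
  | 0, .ex _ _ => False
  | k + 1, .ex _ φ => QRLe k φ

/-- The fixed language: the symbols with even index are unary, those with odd index are binary. -/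
def aS : ℕ → ℕ := fun n => n % 2 + 1

/-- numbering of the unary symbols: lengths, relations of the original language, subformulas -/
noncomputable def eU : (ℕ ⊕ ℕ ⊕ List ℕ) ≃ ℕ := Denumerable.eqv _

/-- numbering of the binary symbols: extension (`none`), `j`-th entry (`some j`) -/
noncomputable def eB : Option ℕ ≃ ℕ := Denumerable.eqv _

/-- unary atomic formula -/
noncomputable def uF (k : ℕ ⊕ ℕ ⊕ List ℕ) (x : ℕ) : Fml aS := .rel (2 * eU k) (fun _ => x)

/-- binary atomic formula -/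
noncomputable def bF (k : Option ℕ) (x y : ℕ) : Fml aS :=
  .rel (2 * eB k + 1) (fun i => if i.val = 0 then x else y)

/-- structures coding tuples, on any set -/
structure TS (β : Type) where
  /-- length -/
  L : ℕ → β → Prop
  /-- relations of the original language, as predicates of tuples -/
  R : ℕ → β → Prop
  /-- subformulas (indexed by their position) -/
  P : List ℕ → β → Prop
  /-- extension of a tuple by one entry -/
  X : β → β → Prop
  /-- the `j`-th entry (as a tuple of length one) -/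
  E : ℕ → β → β → Prop

/-- the relations of a structure for `aS` -/
noncomputable def ofStr (S : Str aS) : TS ℕ where
  L := fun n x => S (2 * eU (.inl n)) (fun _ => x) = true
  R := fun n x => S (2 * eU (.inr (.inl n))) (fun _ => x) = true
  P := fun p x => S (2 * eU (.inr (.inr p))) (fun _ => x) = true
  X := fun x y => S (2 * eB none + 1) (fun i => if i.val = 0 then x else y) = true
  E := fun j x y => S (2 * eB (some j) + 1) (fun i => if i.val = 0 then x else y) = true

/-- isomorphism of `TS` -/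
def TIso {β γ : Type} (T : TS β) (T' : TS γ) : Prop :=
  ∃ σ : β ≃ γ, (∀ n x, T'.L n (σ x) ↔ T.L n x) ∧ (∀ n x, T'.R n (σ x) ↔ T.R n x) ∧
    (∀ p x, T'.P p (σ x) ↔ T.P p x) ∧ (∀ x y, T'.X (σ x) (σ y) ↔ T.X x y) ∧
    (∀ j x y, T'.E j (σ x) (σ y) ↔ T.E j x y)

/-- A node of a formula: number of quantifiers above, position of the variables in the tuple,
subformula. -/
structure Node (a : ℕ → ℕ) where
  n : ℕ
  env : ℕ → ℕ
  f : Fml a

/-- children of a node -/
def Node.child {a : ℕ → ℕ} (N : Node a) (k : ℕ) : Node a :=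
  match N.f with
  | .rel m t => ⟨N.n, N.env, .rel m t⟩
  | .eq i j => ⟨N.n, N.env, .eq i j⟩
  | .neg φ => ⟨N.n, N.env, φ⟩
  | .conj φ => ⟨N.n, N.env, φ k⟩
  | .ex i φ => ⟨N.n + 1, Function.update N.env i N.n, φ⟩

/-- the node of `ψ` at position `p` -/
def nd {a : ℕ → ℕ} (ψ : Fml a) (p : List ℕ) : Node a :=
  p.foldl Node.child ⟨0, fun _ => 0, ψ⟩

/-- what the predicate `P p` means at the tuple `x`, in terms of `R` and the predicates of the
children -/
def PAx {a : ℕ → ℕ} (ψ : Fml a) {β : Type} (T : TS β) (p : List ℕ) : Prop :=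
  match (nd ψ p).f with
  | .rel m t => ∀ x y, T.L (nd ψ p).n x → T.L (a m) y →
      (∀ i : Fin (a m), ∃ z, T.E ((nd ψ p).env (t i)) x z ∧ T.E i y z) → (T.P p x ↔ T.R m y)
  | .eq i j => ∀ x, T.L (nd ψ p).n x →
      (T.P p x ↔ ∃ z, T.E ((nd ψ p).env i) x z ∧ T.E ((nd ψ p).env j) x z)
  | .neg _ => ∀ x, T.L (nd ψ p).n x → (T.P p x ↔ ¬ T.P (p ++ [0]) x)
  | .conj _ => ∀ x, T.L (nd ψ p).n x → (T.P p x ↔ ∀ k, T.P (p ++ [k]) x)
  | .ex _ _ => ∀ x, T.L (nd ψ p).n x → (T.P p x ↔ ∃ y, T.X x y ∧ T.P (p ++ [0]) y)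

/-- the axioms -/
structure Ax {a : ℕ → ℕ} (ψ : Fml a) {β : Type} (T : TS β) : Prop where
  len : ∀ x, ∃ n, T.L n x
  len' : ∀ n m, n ≠ m → ∀ x, ¬ (T.L n x ∧ T.L m x)
  emp : ∃ x, T.L 0 x
  emp' : ∀ x y, T.L 0 x → T.L 0 y → x = y
  ent : ∀ j n, j < n → ∀ x, T.L n x → ∃ y, T.E j x y
  ent' : ∀ j x y, T.E j x y → T.L 1 y
  ent'' : ∀ j n, n ≤ j → ∀ x y, ¬ (T.L n x ∧ T.E j x y)
  entu : ∀ j x y z, T.E j x y → T.E j x z → y = z
  one : ∀ x, T.L 1 x → T.E 0 x x
  extn : ∀ n x y, T.L n x → T.L n y → (∀ j < n, ∃ z, T.E j x z ∧ T.E j y z) → x = y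
  ext : ∀ n x y, T.L n x → T.L 1 y → ∃ z, T.X x z ∧ T.E n z y
  extd : ∀ n x y, T.L n x →
    (T.X x y ↔ T.L (n + 1) y ∧ ∀ j < n, ∃ z, T.E j x z ∧ T.E j y z)
  rel : ∀ m x, T.R m x → T.L (a m) x
  pln : ∀ p x, T.P p x → T.L (nd ψ p).n x
  pax : ∀ p, PAx ψ T p
  root : ∀ x, T.L 0 x → T.P [] x
  inf : ∀ n, ∃ x, T.L n x ∧ ∀ i j, i < j → j < n → ¬ ∃ z, T.E i x z ∧ T.E j x z

/-- the structure of all finite tuples of elements of `M` -/
def tup {a : ℕ → ℕ} (ψ : Fml a) (M : Str a) : TS (List ℕ) where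
  L := fun n l => l.length = n
  R := fun m l => l.length = a m ∧ M m (fun i => l.getD i 0) = true
  P := fun p l => l.length = (nd ψ p).n ∧ Sat M (nd ψ p).f (fun i => l.getD ((nd ψ p).env i) 0)
  X := fun l l' => ∃ x, l' = l ++ [x]
  E := fun j l l' => ∃ h : j < l.length, l' = [l[j]]

open Classical in
/-- `x` is the `k`-th tuple of length one -/
def Kth (T : TS ℕ) (k x : ℕ) : Prop :=
  T.L 1 x ∧ Nat.count (T.L 1) x = k

/-- transport of a structure along a bijection -/
def TS.map {β γ : Type} (e : β ≃ γ) (T : TS β) : TS γ where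
  L := fun n x => T.L n (e.symm x)
  R := fun n x => T.R n (e.symm x)
  P := fun p x => T.P p (e.symm x)
  X := fun x y => T.X (e.symm x) (e.symm y)
  E := fun j x y => T.E j (e.symm x) (e.symm y)

/-- isomorphism of structures on `ℕ` (as in the frozen statement S14675) -/
def SIso {a : ℕ → ℕ} (M N : Str a) : Prop :=
  ∃ σ : Equiv.Perm ℕ, ∀ (n : ℕ) (t : Fin (a n) → ℕ), N n (fun i => σ (t i)) = M n t

open Classical in
/-- decoding -/
noncomputable def dec (a : ℕ → ℕ) (T : TS ℕ) : Str a := fun m t =>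
  decide (∃ s, T.L (a m) s ∧ T.R m s ∧ ∀ i : Fin (a m), ∃ x, Kth T (t i) x ∧ T.E i s x)

end Pool.H17.TW
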