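import Pool.Agent.H17.TV.Ar3
import Pool.Agent.H17.TW.DecM

/-!
# Borel families of non-isomorphic structures
-/

set_option autoImplicit false

namespace Pool.H17.TW

open Pool.H17.TV

theorem fam_secondCountable (a : ℕ → ℕ) : SecondCountableTopology (Str a) := by
  unfold Str
  infer_instance

/-- PROOF. `h` is injective (`h s = h s'` gives an isomorphism, the identity). By
`Measurable.exists_continuous` there is a finer Polish topology `t'` on `ℕ → Bool` such that `h` is
continuous for `t'`. The space `(ℕ → Bool, t')` is Polish and uncountable, so there is a continuous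
injection `e : (ℕ → Bool) → (ℕ → Bool, t')` (`IsClosed.exists_nat_bool_injection_of_not_countable`
for `Set.univ`). Apply `dich_of_family` to `h ∘ e`. -/
theorem dich_of_meas {a : ℕ → ℕ} (B : Set (Str a)) (h : (ℕ → Bool) → Str a) (hm : Measurable h)
    (hB : ∀ s, h s ∈ B) (hi : ∀ s s', SIso (h s) (h s') → s = s') : Dich B := by
  have := borel_str a
  have := fam_secondCountable a
  have := Pool.H22.VC.fr_polishBool
  have key : ∃ e : (ℕ → Bool) → (ℕ → Bool), Continuous (h ∘ e) ∧ Function.Injective e := by
    obtain ⟨τ', hle, hfc, hτ'⟩ := hm.exists_continuous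
    have hunc : ¬ (Set.univ : Set (ℕ → Bool)).Countable := Pool.H22.VC.fr_unc
    obtain ⟨e, -, hec, hei⟩ := @IsClosed.exists_nat_bool_injection_of_not_countable (ℕ → Bool) τ' hτ'
      Set.univ (@isClosed_univ _ τ') hunc
    exact ⟨e, @Continuous.comp (ℕ → Bool) (ℕ → Bool) (Str a) Pi.topologicalSpace τ'
      Pi.topologicalSpace e h hfc hec, hei⟩
  obtain ⟨e, hec, hei⟩ := key
  refine dich_of_family B (h ∘ e) hec (fun s => hB _) ?_
  intro s s' hσ
  exact hei (hi _ _ hσ)

end Pool.H17.TW
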