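import Pool.Agent.H17.TW.Defs

/-!
# Definability calculus: three variables, quantifier rank at most three
-/

set_option autoImplicit false

namespace Pool.H17.TW

open Pool.H17.TV

/-- The property `A` of structures and assignments is expressed by a formula with free variables
in `s`, variables among the first three, and quantifier rank at most `k`. -/
def DefP (k : ℕ) (s : Set ℕ) (A : Str aS → (ℕ → ℕ) → Prop) : Prop :=
  ∃ φ : Fml aS, FreeIn s φ ∧ VarsLt 3 φ ∧ QRLe k φ ∧ ∀ S v, Sat S φ v ↔ A S v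

private theorem qrLe_rel {k : ℕ} (n : ℕ) (t : Fin (aS n) → ℕ) : QRLe k (Fml.rel n t) := by
  cases k <;> trivial

private theorem qrLe_eq {k : ℕ} (i j : ℕ) : QRLe k (Fml.eq i j : Fml aS) := by
  cases k <;> trivial

private theorem qrLe_neg {k : ℕ} {φ : Fml aS} (h : QRLe k φ) : QRLe k (Fml.neg φ) := by
  cases k <;> exact h

private theorem qrLe_conj {k : ℕ} {φ : ℕ → Fml aS} (h : ∀ j, QRLe k (φ j)) :
    QRLe k (Fml.conj φ) := by
  cases k <;> exact h

theorem defP_L {k : ℕ} {s : Set ℕ} (n x : ℕ) (hx : x ∈ s) (h3 : x < 3) :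
    DefP k s (fun S v => (ofStr S).L n (v x)) :=
  ⟨uF (.inl n) x, fun _ => hx, fun _ => h3, qrLe_rel _ _, fun _ _ => Iff.rfl⟩

theorem defP_R {k : ℕ} {s : Set ℕ} (n x : ℕ) (hx : x ∈ s) (h3 : x < 3) :
    DefP k s (fun S v => (ofStr S).R n (v x)) :=
  ⟨uF (.inr (.inl n)) x, fun _ => hx, fun _ => h3, qrLe_rel _ _, fun _ _ => Iff.rfl⟩

theorem defP_P {k : ℕ} {s : Set ℕ} (p : List ℕ) (x : ℕ) (hx : x ∈ s) (h3 : x < 3) :
    DefP k s (fun S v => (ofStr S).P p (v x)) :=
  ⟨uF (.inr (.inr p)) x, fun _ => hx, fun _ => h3, qrLe_rel _ _, fun _ _ => Iff.rfl⟩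

private theorem defP_bF {k : ℕ} {s : Set ℕ} (j : Option ℕ) (x y : ℕ) (hx : x ∈ s) (h3 : x < 3)
    (hy : y ∈ s) (h3' : y < 3) :
    DefP k s (fun S v => S (2 * eB j + 1) (fun i => if i.val = 0 then v x else v y) = true) := by
  refine ⟨bF j x y, ?_, ?_, qrLe_rel _ _, ?_⟩
  · intro i
    show (if i.val = 0 then x else y) ∈ s
    split_ifs
    · exact hx
    · exact hy
  · intro i
    show (if i.val = 0 then x else y) < 3
    split_ifs
    · exact h3
    · exact h3'
  · intro S v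
    show S (2 * eB j + 1) (fun i => v (if i.val = 0 then x else y)) = true ↔ _
    have : (fun i : Fin (aS (2 * eB j + 1)) => v (if i.val = 0 then x else y)) =
        (fun i => if i.val = 0 then v x else v y) := by
      funext i
      split_ifs <;> rfl
    rw [this]

theorem defP_X {k : ℕ} {s : Set ℕ} (x y : ℕ) (hx : x ∈ s) (h3 : x < 3) (hy : y ∈ s) (h3' : y < 3) :
    DefP k s (fun S v => (ofStr S).X (v x) (v y)) :=
  defP_bF none x y hx h3 hy h3'

theorem defP_E {k : ℕ} {s : Set ℕ} (j x y : ℕ) (hx : x ∈ s) (h3 : x < 3) (hy : y ∈ s)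
    (h3' : y < 3) : DefP k s (fun S v => (ofStr S).E j (v x) (v y)) :=
  defP_bF (some j) x y hx h3 hy h3'

theorem defP_eq {k : ℕ} {s : Set ℕ} (x y : ℕ) (hx : x ∈ s) (h3 : x < 3) (hy : y ∈ s)
    (h3' : y < 3) : DefP k s (fun _ v => v x = v y) :=
  ⟨.eq x y, ⟨hx, hy⟩, ⟨h3, h3'⟩, qrLe_eq _ _, fun _ _ => Iff.rfl⟩

theorem defP_congr {k : ℕ} {s : Set ℕ} {A B : Str aS → (ℕ → ℕ) → Prop} (h : DefP k s A)
    (hAB : ∀ S v, A S v ↔ B S v) : DefP k s B := by
  obtain ⟨φ, h1, h2, h3, h4⟩ := h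
  exact ⟨φ, h1, h2, h3, fun S v => (h4 S v).trans (hAB S v)⟩

theorem defP_not {k : ℕ} {s : Set ℕ} {A : Str aS → (ℕ → ℕ) → Prop} (h : DefP k s A) :
    DefP k s (fun S v => ¬ A S v) := by
  obtain ⟨φ, h1, h2, h3, h4⟩ := h
  exact ⟨.neg φ, h1, h2, qrLe_neg h3, fun S v => not_congr (h4 S v)⟩

/-- countable conjunction; enumerate the index type by a surjection from `ℕ` -/
theorem defP_all {ι : Type} [Countable ι] [Nonempty ι] {k : ℕ} {s : Set ℕ}
    {A : ι → Str aS → (ℕ → ℕ) → Prop} (h : ∀ i, DefP k s (A i)) :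
    DefP k s (fun S v => ∀ i, A i S v) := by
  choose φ h1 h2 h3 h4 using h
  obtain ⟨f, hf⟩ := exists_surjective_nat ι
  refine ⟨.conj (fun n => φ (f n)), fun n => h1 _, fun n => h2 _, qrLe_conj fun n => h3 _, ?_⟩
  intro S v
  constructor
  · intro H i
    obtain ⟨n, rfl⟩ := hf i
    exact (h4 _ S v).1 (H n)
  · intro H n
    exact (h4 _ S v).2 (H _)

/-- countable disjunction -/
theorem defP_exI {ι : Type} [Countable ι] [Nonempty ι] {k : ℕ} {s : Set ℕ}
    {A : ι → Str aS → (ℕ → ℕ) → Prop} (h : ∀ i, DefP k s (A i)) :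
    DefP k s (fun S v => ∃ i, A i S v) := by
  refine defP_congr (defP_not (defP_all fun i => defP_not (h i))) ?_
  intro S v
  push Not
  rfl

theorem defP_and {k : ℕ} {s : Set ℕ} {A B : Str aS → (ℕ → ℕ) → Prop} (h : DefP k s A)
    (h' : DefP k s B) : DefP k s (fun S v => A S v ∧ B S v) := by
  refine defP_congr (defP_all (ι := Bool)
    (A := fun b S v => (b = true → A S v) ∧ (b = false → B S v)) ?_) ?_
  · intro b
    cases b
    · exact defP_congr h' (fun S v => by simp)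
    · exact defP_congr h (fun S v => by simp)
  · intro S v
    constructor
    · intro H
      exact ⟨(H true).1 rfl, (H false).2 rfl⟩
    · intro H b
      exact ⟨fun _ => H.1, fun _ => H.2⟩

theorem defP_imp {k : ℕ} {s : Set ℕ} {A B : Str aS → (ℕ → ℕ) → Prop} (h : DefP k s A)
    (h' : DefP k s B) : DefP k s (fun S v => A S v → B S v) := by
  refine defP_congr (defP_not (defP_and h (defP_not h'))) ?_
  intro S v
  push Not
  rfl

theorem defP_iff {k : ℕ} {s : Set ℕ} {A B : Str aS → (ℕ → ℕ) → Prop} (h : DefP k s A)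
    (h' : DefP k s B) : DefP k s (fun S v => A S v ↔ B S v) :=
  defP_congr (defP_and (defP_imp h h') (defP_imp h' h)) fun _ _ =>
    ⟨fun H => ⟨H.1, H.2⟩, fun H => ⟨H.1, H.2⟩⟩

theorem defP_ex {k : ℕ} {s : Set ℕ} {A : Str aS → (ℕ → ℕ) → Prop} (x : ℕ) (h3 : x < 3)
    (h : DefP k (insert x s) A) :
    DefP (k + 1) s (fun S v => ∃ z, A S (Function.update v x z)) := by
  obtain ⟨φ, h1, h2, hq, h4⟩ := h
  exact ⟨.ex x φ, h1, ⟨h3, h2⟩, hq, fun S v => exists_congr fun z => h4 S _⟩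

theorem defP_forall {k : ℕ} {s : Set ℕ} {A : Str aS → (ℕ → ℕ) → Prop} (x : ℕ) (h3 : x < 3)
    (h : DefP k (insert x s) A) :
    DefP (k + 1) s (fun S v => ∀ z, A S (Function.update v x z)) := by
  refine defP_congr (defP_not (defP_ex x h3 (defP_not h))) ?_
  intro S v
  push Not
  rfl

/-- constants, when there is a free variable (use `eq x x`) -/
theorem defP_const {k : ℕ} {s : Set ℕ} (p : Prop) (x : ℕ) (hx : x ∈ s) (h3 : x < 3) :
    DefP k s (fun _ _ => p) := by
  have h0 : DefP k s (fun _ v => v x = v x) := defP_eq x x hx h3 hx h3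
  by_cases hp : p
  · exact defP_congr h0 fun S v => by simp [hp]
  · exact defP_congr (defP_not h0) fun S v => by simp [hp]

/-- constants, when a quantifier is allowed (use `ex 0 (eq 0 0)`) -/
theorem defP_const' {k : ℕ} {s : Set ℕ} (p : Prop) : DefP (k + 1) s (fun _ _ => p) := by
  have h0 : DefP k (insert 0 s) (fun _ _ => p) :=
    defP_const p 0 (Set.mem_insert _ _) (by norm_num)
  exact defP_congr (defP_ex 0 (by norm_num) h0) fun S v => by simp

end Pool.H17.TW
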