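import Pool.Agent.H17.TW.Form

/-!
# The axioms are expressed by one sentence with three variables and quantifier rank three
-/

set_option autoImplicit false

namespace Pool.H17.TW

open Pool.H17.TV

theorem form2_A0 {k : ℕ} {s : Set ℕ} (B : Str aS → ℕ → ℕ → ℕ → Prop)
    (h : DefP k (insert 0 s) (fun S v => B S (v 0) (v 1) (v 2))) :
    DefP (k + 1) s (fun S v => ∀ x, B S x (v 1) (v 2)) :=
  defP_congr (defP_forall 0 (by norm_num) h) (fun S v => by simp)

theorem form2_A1 {k : ℕ} {s : Set ℕ} (B : Str aS → ℕ → ℕ → ℕ → Prop)
    (h : DefP k (insert 1 s) (fun S v => B S (v 0) (v 1) (v 2))) :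
    DefP (k + 1) s (fun S v => ∀ x, B S (v 0) x (v 2)) :=
  defP_congr (defP_forall 1 (by norm_num) h) (fun S v => by simp)

theorem form2_A2 {k : ℕ} {s : Set ℕ} (B : Str aS → ℕ → ℕ → ℕ → Prop)
    (h : DefP k (insert 2 s) (fun S v => B S (v 0) (v 1) (v 2))) :
    DefP (k + 1) s (fun S v => ∀ x, B S (v 0) (v 1) x) :=
  defP_congr (defP_forall 2 (by norm_num) h) (fun S v => by simp)

theorem form2_E0 {k : ℕ} {s : Set ℕ} (B : Str aS → ℕ → ℕ → ℕ → Prop)
    (h : DefP k (insert 0 s) (fun S v => B S (v 0) (v 1) (v 2))) :
    DefP (k + 1) s (fun S v => ∃ x, B S x (v 1) (v 2)) :=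
  defP_congr (defP_ex 0 (by norm_num) h) (fun S v => by simp)

theorem form2_E1 {k : ℕ} {s : Set ℕ} (B : Str aS → ℕ → ℕ → ℕ → Prop)
    (h : DefP k (insert 1 s) (fun S v => B S (v 0) (v 1) (v 2))) :
    DefP (k + 1) s (fun S v => ∃ x, B S (v 0) x (v 2)) :=
  defP_congr (defP_ex 1 (by norm_num) h) (fun S v => by simp)

theorem form2_E2 {k : ℕ} {s : Set ℕ} (B : Str aS → ℕ → ℕ → ℕ → Prop)
    (h : DefP k (insert 2 s) (fun S v => B S (v 0) (v 1) (v 2))) :
    DefP (k + 1) s (fun S v => ∃ x, B S (v 0) (v 1) x) :=
  defP_congr (defP_ex 2 (by norm_num) h) (fun S v => by simp)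

theorem form2_len : DefP 3 ∅ (fun S _ => ∀ x, ∃ n, (ofStr S).L n x) :=
  form2_A0 (fun S x _ _ => ∃ n, (ofStr S).L n x) (defP_exI fun n => by
    repeat' first
      | exact defP_L _ _ (by simp) (by norm_num)
      | exact defP_R _ _ (by simp) (by norm_num)
      | exact defP_P _ _ (by simp) (by norm_num)
      | exact defP_X _ _ (by simp) (by norm_num) (by simp) (by norm_num)
      | exact defP_E _ _ _ (by simp) (by norm_num) (by simp) (by norm_num)
      | exact defP_eq _ _ (by simp) (by norm_num) (by simp) (by norm_num)
      | exact defP_const' _
      | apply defP_not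
      | apply defP_and
      | apply defP_iff
      | apply defP_all
      | intro _
      | apply defP_imp)

theorem form2_len' : DefP 3 ∅ (fun S _ => ∀ n m, n ≠ m → ∀ x, ¬ ((ofStr S).L n x ∧ (ofStr S).L m x)) := by
  apply defP_all; intro n
  apply defP_all; intro m
  apply defP_imp (defP_const' _)
  exact form2_A0 (fun S x _ _ => ¬ ((ofStr S).L n x ∧ (ofStr S).L m x)) (by
    repeat' first
      | exact defP_L _ _ (by simp) (by norm_num)
      | exact defP_R _ _ (by simp) (by norm_num)
      | exact defP_P _ _ (by simp) (by norm_num)
      | exact defP_X _ _ (by simp) (by norm_num) (by simp) (by norm_num)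
      | exact defP_E _ _ _ (by simp) (by norm_num) (by simp) (by norm_num)
      | exact defP_eq _ _ (by simp) (by norm_num) (by simp) (by norm_num)
      | exact defP_const' _
      | apply defP_not
      | apply defP_and
      | apply defP_iff
      | apply defP_all
      | intro _
      | apply defP_imp)

theorem form2_emp : DefP 3 ∅ (fun S _ => ∃ x, (ofStr S).L 0 x) :=
  form2_E0 (fun S x _ _ => (ofStr S).L 0 x) (by
    repeat' first
      | exact defP_L _ _ (by simp) (by norm_num)
      | exact defP_R _ _ (by simp) (by norm_num)
      | exact defP_P _ _ (by simp) (by norm_num)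
      | exact defP_X _ _ (by simp) (by norm_num) (by simp) (by norm_num)
      | exact defP_E _ _ _ (by simp) (by norm_num) (by simp) (by norm_num)
      | exact defP_eq _ _ (by simp) (by norm_num) (by simp) (by norm_num)
      | exact defP_const' _
      | apply defP_not
      | apply defP_and
      | apply defP_iff
      | apply defP_all
      | intro _
      | apply defP_imp)

theorem form2_emp' : DefP 3 ∅ (fun S _ => ∀ x y, (ofStr S).L 0 x → (ofStr S).L 0 y → x = y) :=
  form2_A0 (fun S x _ _ => ∀ y, (ofStr S).L 0 x → (ofStr S).L 0 y → x = y) <|
  form2_A1 (fun S x y _ => (ofStr S).L 0 x → (ofStr S).L 0 y → x = y) (by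
    repeat' first
      | exact defP_L _ _ (by simp) (by norm_num)
      | exact defP_R _ _ (by simp) (by norm_num)
      | exact defP_P _ _ (by simp) (by norm_num)
      | exact defP_X _ _ (by simp) (by norm_num) (by simp) (by norm_num)
      | exact defP_E _ _ _ (by simp) (by norm_num) (by simp) (by norm_num)
      | exact defP_eq _ _ (by simp) (by norm_num) (by simp) (by norm_num)
      | exact defP_const' _
      | apply defP_not
      | apply defP_and
      | apply defP_iff
      | apply defP_all
      | intro _
      | apply defP_imp)

theorem form2_ent : DefP 3 ∅ (fun S _ => ∀ j n, j < n → ∀ x, (ofStr S).L n x →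
    ∃ y, (ofStr S).E j x y) := by
  apply defP_all; intro j
  apply defP_all; intro n
  apply defP_imp (defP_const' _)
  refine form2_A0 (fun S x _ _ => (ofStr S).L n x → ∃ y, (ofStr S).E j x y) ?_
  apply defP_imp (by
    repeat' first
      | exact defP_L _ _ (by simp) (by norm_num)
      | exact defP_R _ _ (by simp) (by norm_num)
      | exact defP_P _ _ (by simp) (by norm_num)
      | exact defP_X _ _ (by simp) (by norm_num) (by simp) (by norm_num)
      | exact defP_E _ _ _ (by simp) (by norm_num) (by simp) (by norm_num)
      | exact defP_eq _ _ (by simp) (by norm_num) (by simp) (by norm_num)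
      | exact defP_const' _
      | apply defP_not
      | apply defP_and
      | apply defP_iff
      | apply defP_all
      | intro _
      | apply defP_imp)
  exact form2_E1 (fun S x y _ => (ofStr S).E j x y) (by
    repeat' first
      | exact defP_L _ _ (by simp) (by norm_num)
      | exact defP_R _ _ (by simp) (by norm_num)
      | exact defP_P _ _ (by simp) (by norm_num)
      | exact defP_X _ _ (by simp) (by norm_num) (by simp) (by norm_num)
      | exact defP_E _ _ _ (by simp) (by norm_num) (by simp) (by norm_num)
      | exact defP_eq _ _ (by simp) (by norm_num) (by simp) (by norm_num)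
      | exact defP_const' _
      | apply defP_not
      | apply defP_and
      | apply defP_iff
      | apply defP_all
      | intro _
      | apply defP_imp)

theorem form2_ent' : DefP 3 ∅ (fun S _ => ∀ j x y, (ofStr S).E j x y → (ofStr S).L 1 y) := by
  apply defP_all; intro j
  exact form2_A0 (fun S x _ _ => ∀ y, (ofStr S).E j x y → (ofStr S).L 1 y) <|
    form2_A1 (fun S x y _ => (ofStr S).E j x y → (ofStr S).L 1 y) (by
    repeat' first
      | exact defP_L _ _ (by simp) (by norm_num)
      | exact defP_R _ _ (by simp) (by norm_num)
      | exact defP_P _ _ (by simp) (by norm_num)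
      | exact defP_X _ _ (by simp) (by norm_num) (by simp) (by norm_num)
      | exact defP_E _ _ _ (by simp) (by norm_num) (by simp) (by norm_num)
      | exact defP_eq _ _ (by simp) (by norm_num) (by simp) (by norm_num)
      | exact defP_const' _
      | apply defP_not
      | apply defP_and
      | apply defP_iff
      | apply defP_all
      | intro _
      | apply defP_imp)

theorem form2_ent'' : DefP 3 ∅ (fun S _ => ∀ j n, n ≤ j → ∀ x y,
    ¬ ((ofStr S).L n x ∧ (ofStr S).E j x y)) := by
  apply defP_all; intro j
  apply defP_all; intro n
  apply defP_imp (defP_const' _)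
  exact form2_A0 (fun S x _ _ => ∀ y, ¬ ((ofStr S).L n x ∧ (ofStr S).E j x y)) <|
    form2_A1 (fun S x y _ => ¬ ((ofStr S).L n x ∧ (ofStr S).E j x y)) (by
    repeat' first
      | exact defP_L _ _ (by simp) (by norm_num)
      | exact defP_R _ _ (by simp) (by norm_num)
      | exact defP_P _ _ (by simp) (by norm_num)
      | exact defP_X _ _ (by simp) (by norm_num) (by simp) (by norm_num)
      | exact defP_E _ _ _ (by simp) (by norm_num) (by simp) (by norm_num)
      | exact defP_eq _ _ (by simp) (by norm_num) (by simp) (by norm_num)
      | exact defP_const' _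
      | apply defP_not
      | apply defP_and
      | apply defP_iff
      | apply defP_all
      | intro _
      | apply defP_imp)

theorem form2_entu : DefP 3 ∅ (fun S _ => ∀ j x y z, (ofStr S).E j x y → (ofStr S).E j x z →
    y = z) := by
  apply defP_all; intro j
  exact form2_A0 (fun S x _ _ => ∀ y z, (ofStr S).E j x y → (ofStr S).E j x z → y = z) <|
    form2_A1 (fun S x y _ => ∀ z, (ofStr S).E j x y → (ofStr S).E j x z → y = z) <|
    form2_A2 (fun S x y z => (ofStr S).E j x y → (ofStr S).E j x z → y = z) (by
    repeat' first
      | exact defP_L _ _ (by simp) (by norm_num)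
      | exact defP_R _ _ (by simp) (by norm_num)
      | exact defP_P _ _ (by simp) (by norm_num)
      | exact defP_X _ _ (by simp) (by norm_num) (by simp) (by norm_num)
      | exact defP_E _ _ _ (by simp) (by norm_num) (by simp) (by norm_num)
      | exact defP_eq _ _ (by simp) (by norm_num) (by simp) (by norm_num)
      | exact defP_const' _
      | apply defP_not
      | apply defP_and
      | apply defP_iff
      | apply defP_all
      | intro _
      | apply defP_imp)

theorem form2_one : DefP 3 ∅ (fun S _ => ∀ x, (ofStr S).L 1 x → (ofStr S).E 0 x x) :=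
  form2_A0 (fun S x _ _ => (ofStr S).L 1 x → (ofStr S).E 0 x x) (by
    repeat' first
      | exact defP_L _ _ (by simp) (by norm_num)
      | exact defP_R _ _ (by simp) (by norm_num)
      | exact defP_P _ _ (by simp) (by norm_num)
      | exact defP_X _ _ (by simp) (by norm_num) (by simp) (by norm_num)
      | exact defP_E _ _ _ (by simp) (by norm_num) (by simp) (by norm_num)
      | exact defP_eq _ _ (by simp) (by norm_num) (by simp) (by norm_num)
      | exact defP_const' _
      | apply defP_not
      | apply defP_and
      | apply defP_iff
      | apply defP_all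
      | intro _
      | apply defP_imp)

theorem form2_extn : DefP 3 ∅ (fun S _ => ∀ n x y, (ofStr S).L n x → (ofStr S).L n y →
    (∀ j < n, ∃ z, (ofStr S).E j x z ∧ (ofStr S).E j y z) → x = y) := by
  apply defP_all; intro n
  refine form2_A0 (fun S x _ _ => ∀ y, (ofStr S).L n x → (ofStr S).L n y →
    (∀ j < n, ∃ z, (ofStr S).E j x z ∧ (ofStr S).E j y z) → x = y) <|
    form2_A1 (fun S x y _ => (ofStr S).L n x → (ofStr S).L n y →
    (∀ j < n, ∃ z, (ofStr S).E j x z ∧ (ofStr S).E j y z) → x = y) ?_
  apply defP_imp (by
    repeat' first
      | exact defP_L _ _ (by simp) (by norm_num)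
      | exact defP_R _ _ (by simp) (by norm_num)
      | exact defP_P _ _ (by simp) (by norm_num)
      | exact defP_X _ _ (by simp) (by norm_num) (by simp) (by norm_num)
      | exact defP_E _ _ _ (by simp) (by norm_num) (by simp) (by norm_num)
      | exact defP_eq _ _ (by simp) (by norm_num) (by simp) (by norm_num)
      | exact defP_const' _
      | apply defP_not
      | apply defP_and
      | apply defP_iff
      | apply defP_all
      | intro _
      | apply defP_imp)
  apply defP_imp (by
    repeat' first
      | exact defP_L _ _ (by simp) (by norm_num)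
      | exact defP_R _ _ (by simp) (by norm_num)
      | exact defP_P _ _ (by simp) (by norm_num)
      | exact defP_X _ _ (by simp) (by norm_num) (by simp) (by norm_num)
      | exact defP_E _ _ _ (by simp) (by norm_num) (by simp) (by norm_num)
      | exact defP_eq _ _ (by simp) (by norm_num) (by simp) (by norm_num)
      | exact defP_const' _
      | apply defP_not
      | apply defP_and
      | apply defP_iff
      | apply defP_all
      | intro _
      | apply defP_imp)
  refine defP_imp ?_ (by
    repeat' first
      | exact defP_L _ _ (by simp) (by norm_num)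
      | exact defP_R _ _ (by simp) (by norm_num)
      | exact defP_P _ _ (by simp) (by norm_num)
      | exact defP_X _ _ (by simp) (by norm_num) (by simp) (by norm_num)
      | exact defP_E _ _ _ (by simp) (by norm_num) (by simp) (by norm_num)
      | exact defP_eq _ _ (by simp) (by norm_num) (by simp) (by norm_num)
      | exact defP_const' _
      | apply defP_not
      | apply defP_and
      | apply defP_iff
      | apply defP_all
      | intro _
      | apply defP_imp)
  apply defP_all; intro j
  apply defP_imp (defP_const' _)
  exact form2_E2 (fun S x y z => (ofStr S).E j x z ∧ (ofStr S).E j y z) (by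
    repeat' first
      | exact defP_L _ _ (by simp) (by norm_num)
      | exact defP_R _ _ (by simp) (by norm_num)
      | exact defP_P _ _ (by simp) (by norm_num)
      | exact defP_X _ _ (by simp) (by norm_num) (by simp) (by norm_num)
      | exact defP_E _ _ _ (by simp) (by norm_num) (by simp) (by norm_num)
      | exact defP_eq _ _ (by simp) (by norm_num) (by simp) (by norm_num)
      | exact defP_const' _
      | apply defP_not
      | apply defP_and
      | apply defP_iff
      | apply defP_all
      | intro _
      | apply defP_imp)

theorem form2_ext : DefP 3 ∅ (fun S _ => ∀ n x y, (ofStr S).L n x → (ofStr S).L 1 y →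
    ∃ z, (ofStr S).X x z ∧ (ofStr S).E n z y) := by
  apply defP_all; intro n
  refine form2_A0 (fun S x _ _ => ∀ y, (ofStr S).L n x → (ofStr S).L 1 y →
    ∃ z, (ofStr S).X x z ∧ (ofStr S).E n z y) <|
    form2_A1 (fun S x y _ => (ofStr S).L n x → (ofStr S).L 1 y →
    ∃ z, (ofStr S).X x z ∧ (ofStr S).E n z y) ?_
  apply defP_imp (by
    repeat' first
      | exact defP_L _ _ (by simp) (by norm_num)
      | exact defP_R _ _ (by simp) (by norm_num)
      | exact defP_P _ _ (by simp) (by norm_num)
      | exact defP_X _ _ (by simp) (by norm_num) (by simp) (by norm_num)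
      | exact defP_E _ _ _ (by simp) (by norm_num) (by simp) (by norm_num)
      | exact defP_eq _ _ (by simp) (by norm_num) (by simp) (by norm_num)
      | exact defP_const' _
      | apply defP_not
      | apply defP_and
      | apply defP_iff
      | apply defP_all
      | intro _
      | apply defP_imp)
  apply defP_imp (by
    repeat' first
      | exact defP_L _ _ (by simp) (by norm_num)
      | exact defP_R _ _ (by simp) (by norm_num)
      | exact defP_P _ _ (by simp) (by norm_num)
      | exact defP_X _ _ (by simp) (by norm_num) (by simp) (by norm_num)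
      | exact defP_E _ _ _ (by simp) (by norm_num) (by simp) (by norm_num)
      | exact defP_eq _ _ (by simp) (by norm_num) (by simp) (by norm_num)
      | exact defP_const' _
      | apply defP_not
      | apply defP_and
      | apply defP_iff
      | apply defP_all
      | intro _
      | apply defP_imp)
  exact form2_E2 (fun S x y z => (ofStr S).X x z ∧ (ofStr S).E n z y) (by
    repeat' first
      | exact defP_L _ _ (by simp) (by norm_num)
      | exact defP_R _ _ (by simp) (by norm_num)
      | exact defP_P _ _ (by simp) (by norm_num)
      | exact defP_X _ _ (by simp) (by norm_num) (by simp) (by norm_num)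
      | exact defP_E _ _ _ (by simp) (by norm_num) (by simp) (by norm_num)
      | exact defP_eq _ _ (by simp) (by norm_num) (by simp) (by norm_num)
      | exact defP_const' _
      | apply defP_not
      | apply defP_and
      | apply defP_iff
      | apply defP_all
      | intro _
      | apply defP_imp)

theorem form2_extd : DefP 3 ∅ (fun S _ => ∀ n x y, (ofStr S).L n x →
    ((ofStr S).X x y ↔ (ofStr S).L (n + 1) y ∧
      ∀ j < n, ∃ z, (ofStr S).E j x z ∧ (ofStr S).E j y z)) := by
  apply defP_all; intro n
  refine form2_A0 (fun S x _ _ => ∀ y, (ofStr S).L n x →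
    ((ofStr S).X x y ↔ (ofStr S).L (n + 1) y ∧
      ∀ j < n, ∃ z, (ofStr S).E j x z ∧ (ofStr S).E j y z)) <|
    form2_A1 (fun S x y _ => (ofStr S).L n x →
    ((ofStr S).X x y ↔ (ofStr S).L (n + 1) y ∧
      ∀ j < n, ∃ z, (ofStr S).E j x z ∧ (ofStr S).E j y z)) ?_
  apply defP_imp (by
    repeat' first
      | exact defP_L _ _ (by simp) (by norm_num)
      | exact defP_R _ _ (by simp) (by norm_num)
      | exact defP_P _ _ (by simp) (by norm_num)
      | exact defP_X _ _ (by simp) (by norm_num) (by simp) (by norm_num)
      | exact defP_E _ _ _ (by simp) (by norm_num) (by simp) (by norm_num)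
      | exact defP_eq _ _ (by simp) (by norm_num) (by simp) (by norm_num)
      | exact defP_const' _
      | apply defP_not
      | apply defP_and
      | apply defP_iff
      | apply defP_all
      | intro _
      | apply defP_imp)
  apply defP_iff (by
    repeat' first
      | exact defP_L _ _ (by simp) (by norm_num)
      | exact defP_R _ _ (by simp) (by norm_num)
      | exact defP_P _ _ (by simp) (by norm_num)
      | exact defP_X _ _ (by simp) (by norm_num) (by simp) (by norm_num)
      | exact defP_E _ _ _ (by simp) (by norm_num) (by simp) (by norm_num)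
      | exact defP_eq _ _ (by simp) (by norm_num) (by simp) (by norm_num)
      | exact defP_const' _
      | apply defP_not
      | apply defP_and
      | apply defP_iff
      | apply defP_all
      | intro _
      | apply defP_imp)
  apply defP_and (by
    repeat' first
      | exact defP_L _ _ (by simp) (by norm_num)
      | exact defP_R _ _ (by simp) (by norm_num)
      | exact defP_P _ _ (by simp) (by norm_num)
      | exact defP_X _ _ (by simp) (by norm_num) (by simp) (by norm_num)
      | exact defP_E _ _ _ (by simp) (by norm_num) (by simp) (by norm_num)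
      | exact defP_eq _ _ (by simp) (by norm_num) (by simp) (by norm_num)
      | exact defP_const' _
      | apply defP_not
      | apply defP_and
      | apply defP_iff
      | apply defP_all
      | intro _
      | apply defP_imp)
  apply defP_all; intro j
  apply defP_imp (defP_const' _)
  exact form2_E2 (fun S x y z => (ofStr S).E j x z ∧ (ofStr S).E j y z) (by
    repeat' first
      | exact defP_L _ _ (by simp) (by norm_num)
      | exact defP_R _ _ (by simp) (by norm_num)
      | exact defP_P _ _ (by simp) (by norm_num)
      | exact defP_X _ _ (by simp) (by norm_num) (by simp) (by norm_num)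
      | exact defP_E _ _ _ (by simp) (by norm_num) (by simp) (by norm_num)
      | exact defP_eq _ _ (by simp) (by norm_num) (by simp) (by norm_num)
      | exact defP_const' _
      | apply defP_not
      | apply defP_and
      | apply defP_iff
      | apply defP_all
      | intro _
      | apply defP_imp)

theorem form2_rel (a : ℕ → ℕ) : DefP 3 ∅ (fun S _ => ∀ m x, (ofStr S).R m x →
    (ofStr S).L (a m) x) := by
  apply defP_all; intro m
  exact form2_A0 (fun S x _ _ => (ofStr S).R m x → (ofStr S).L (a m) x) (by
    repeat' first
      | exact defP_L _ _ (by simp) (by norm_num)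
      | exact defP_R _ _ (by simp) (by norm_num)
      | exact defP_P _ _ (by simp) (by norm_num)
      | exact defP_X _ _ (by simp) (by norm_num) (by simp) (by norm_num)
      | exact defP_E _ _ _ (by simp) (by norm_num) (by simp) (by norm_num)
      | exact defP_eq _ _ (by simp) (by norm_num) (by simp) (by norm_num)
      | exact defP_const' _
      | apply defP_not
      | apply defP_and
      | apply defP_iff
      | apply defP_all
      | intro _
      | apply defP_imp)

theorem form2_pln {a : ℕ → ℕ} (ψ : Fml a) : DefP 3 ∅ (fun S _ => ∀ p x, (ofStr S).P p x →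
    (ofStr S).L (nd ψ p).n x) := by
  apply defP_all; intro p
  exact form2_A0 (fun S x _ _ => (ofStr S).P p x → (ofStr S).L (nd ψ p).n x) (by
    repeat' first
      | exact defP_L _ _ (by simp) (by norm_num)
      | exact defP_R _ _ (by simp) (by norm_num)
      | exact defP_P _ _ (by simp) (by norm_num)
      | exact defP_X _ _ (by simp) (by norm_num) (by simp) (by norm_num)
      | exact defP_E _ _ _ (by simp) (by norm_num) (by simp) (by norm_num)
      | exact defP_eq _ _ (by simp) (by norm_num) (by simp) (by norm_num)
      | exact defP_const' _
      | apply defP_not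
      | apply defP_and
      | apply defP_iff
      | apply defP_all
      | intro _
      | apply defP_imp)

theorem form2_root : DefP 3 ∅ (fun S _ => ∀ x, (ofStr S).L 0 x → (ofStr S).P [] x) :=
  form2_A0 (fun S x _ _ => (ofStr S).L 0 x → (ofStr S).P [] x) (by
    repeat' first
      | exact defP_L _ _ (by simp) (by norm_num)
      | exact defP_R _ _ (by simp) (by norm_num)
      | exact defP_P _ _ (by simp) (by norm_num)
      | exact defP_X _ _ (by simp) (by norm_num) (by simp) (by norm_num)
      | exact defP_E _ _ _ (by simp) (by norm_num) (by simp) (by norm_num)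
      | exact defP_eq _ _ (by simp) (by norm_num) (by simp) (by norm_num)
      | exact defP_const' _
      | apply defP_not
      | apply defP_and
      | apply defP_iff
      | apply defP_all
      | intro _
      | apply defP_imp)

theorem form2_inf : DefP 3 ∅ (fun S _ => ∀ n, ∃ x, (ofStr S).L n x ∧ ∀ i j, i < j → j < n →
    ¬ ∃ z, (ofStr S).E i x z ∧ (ofStr S).E j x z) := by
  apply defP_all; intro n
  refine form2_E0 (fun S x _ _ => (ofStr S).L n x ∧ ∀ i j, i < j → j < n →
    ¬ ∃ z, (ofStr S).E i x z ∧ (ofStr S).E j x z) ?_
  apply defP_and (by
    repeat' first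
      | exact defP_L _ _ (by simp) (by norm_num)
      | exact defP_R _ _ (by simp) (by norm_num)
      | exact defP_P _ _ (by simp) (by norm_num)
      | exact defP_X _ _ (by simp) (by norm_num) (by simp) (by norm_num)
      | exact defP_E _ _ _ (by simp) (by norm_num) (by simp) (by norm_num)
      | exact defP_eq _ _ (by simp) (by norm_num) (by simp) (by norm_num)
      | exact defP_const' _
      | apply defP_not
      | apply defP_and
      | apply defP_iff
      | apply defP_all
      | intro _
      | apply defP_imp)
  apply defP_all; intro i
  apply defP_all; intro j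
  apply defP_imp (defP_const' _)
  apply defP_imp (defP_const' _)
  apply defP_not
  exact form2_E1 (fun S x z _ => (ofStr S).E i x z ∧ (ofStr S).E j x z) (by
    repeat' first
      | exact defP_L _ _ (by simp) (by norm_num)
      | exact defP_R _ _ (by simp) (by norm_num)
      | exact defP_P _ _ (by simp) (by norm_num)
      | exact defP_X _ _ (by simp) (by norm_num) (by simp) (by norm_num)
      | exact defP_E _ _ _ (by simp) (by norm_num) (by simp) (by norm_num)
      | exact defP_eq _ _ (by simp) (by norm_num) (by simp) (by norm_num)
      | exact defP_const' _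
      | apply defP_not
      | apply defP_and
      | apply defP_iff
      | apply defP_all
      | intro _
      | apply defP_imp)

theorem form2_fin {n k : ℕ} {s : Set ℕ} {A : Fin n → Str aS → (ℕ → ℕ) → Prop}
    (h : ∀ i, DefP (k + 1) s (A i)) : DefP (k + 1) s (fun S v => ∀ i, A i S v) := by
  refine defP_congr (A := fun S v => ∀ m : ℕ, ∀ hm : m < n, A ⟨m, hm⟩ S v)
    (defP_all fun m => ?_) (fun S v => ⟨fun h i => h i.1 i.2, fun h m hm => h ⟨m, hm⟩⟩)
  by_cases hm : m < n
  · exact defP_congr (h ⟨m, hm⟩) (fun S v => ⟨fun h _ => h, fun h => h hm⟩)
  · exact defP_congr (defP_const' True) (fun S v => by simp [hm])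

theorem form2_pax {a : ℕ → ℕ} (ψ : Fml a) (p : List ℕ) :
    DefP 3 ∅ (fun S _ => PAx ψ (ofStr S) p) := by
  unfold PAx
  split
  · rename_i m t _
    refine form2_A0 (fun S x _ _ => ∀ y, (ofStr S).L (nd ψ p).n x → (ofStr S).L (a m) y →
      (∀ i : Fin (a m), ∃ z, (ofStr S).E ((nd ψ p).env (t i)) x z ∧ (ofStr S).E i y z) →
      ((ofStr S).P p x ↔ (ofStr S).R m y)) <|
      form2_A1 (fun S x y _ => (ofStr S).L (nd ψ p).n x → (ofStr S).L (a m) y →
      (∀ i : Fin (a m), ∃ z, (ofStr S).E ((nd ψ p).env (t i)) x z ∧ (ofStr S).E i y z) →
      ((ofStr S).P p x ↔ (ofStr S).R m y)) ?_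
    apply defP_imp (by
    repeat' first
      | exact defP_L _ _ (by simp) (by norm_num)
      | exact defP_R _ _ (by simp) (by norm_num)
      | exact defP_P _ _ (by simp) (by norm_num)
      | exact defP_X _ _ (by simp) (by norm_num) (by simp) (by norm_num)
      | exact defP_E _ _ _ (by simp) (by norm_num) (by simp) (by norm_num)
      | exact defP_eq _ _ (by simp) (by norm_num) (by simp) (by norm_num)
      | exact defP_const' _
      | apply defP_not
      | apply defP_and
      | apply defP_iff
      | apply defP_all
      | intro _
      | apply defP_imp)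
    apply defP_imp (by
    repeat' first
      | exact defP_L _ _ (by simp) (by norm_num)
      | exact defP_R _ _ (by simp) (by norm_num)
      | exact defP_P _ _ (by simp) (by norm_num)
      | exact defP_X _ _ (by simp) (by norm_num) (by simp) (by norm_num)
      | exact defP_E _ _ _ (by simp) (by norm_num) (by simp) (by norm_num)
      | exact defP_eq _ _ (by simp) (by norm_num) (by simp) (by norm_num)
      | exact defP_const' _
      | apply defP_not
      | apply defP_and
      | apply defP_iff
      | apply defP_all
      | intro _
      | apply defP_imp)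
    refine defP_imp ?_ (by
    repeat' first
      | exact defP_L _ _ (by simp) (by norm_num)
      | exact defP_R _ _ (by simp) (by norm_num)
      | exact defP_P _ _ (by simp) (by norm_num)
      | exact defP_X _ _ (by simp) (by norm_num) (by simp) (by norm_num)
      | exact defP_E _ _ _ (by simp) (by norm_num) (by simp) (by norm_num)
      | exact defP_eq _ _ (by simp) (by norm_num) (by simp) (by norm_num)
      | exact defP_const' _
      | apply defP_not
      | apply defP_and
      | apply defP_iff
      | apply defP_all
      | intro _
      | apply defP_imp)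
    apply form2_fin; intro i
    exact form2_E2 (fun S x y z => (ofStr S).E ((nd ψ p).env (t i)) x z ∧ (ofStr S).E i y z)
      (by
    repeat' first
      | exact defP_L _ _ (by simp) (by norm_num)
      | exact defP_R _ _ (by simp) (by norm_num)
      | exact defP_P _ _ (by simp) (by norm_num)
      | exact defP_X _ _ (by simp) (by norm_num) (by simp) (by norm_num)
      | exact defP_E _ _ _ (by simp) (by norm_num) (by simp) (by norm_num)
      | exact defP_eq _ _ (by simp) (by norm_num) (by simp) (by norm_num)
      | exact defP_const' _
      | apply defP_not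
      | apply defP_and
      | apply defP_iff
      | apply defP_all
      | intro _
      | apply defP_imp)
  · rename_i i j _
    refine form2_A0 (fun S x _ _ => (ofStr S).L (nd ψ p).n x → ((ofStr S).P p x ↔
      ∃ z, (ofStr S).E ((nd ψ p).env i) x z ∧ (ofStr S).E ((nd ψ p).env j) x z)) ?_
    apply defP_imp (by
    repeat' first
      | exact defP_L _ _ (by simp) (by norm_num)
      | exact defP_R _ _ (by simp) (by norm_num)
      | exact defP_P _ _ (by simp) (by norm_num)
      | exact defP_X _ _ (by simp) (by norm_num) (by simp) (by norm_num)
      | exact defP_E _ _ _ (by simp) (by norm_num) (by simp) (by norm_num)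
      | exact defP_eq _ _ (by simp) (by norm_num) (by simp) (by norm_num)
      | exact defP_const' _
      | apply defP_not
      | apply defP_and
      | apply defP_iff
      | apply defP_all
      | intro _
      | apply defP_imp)
    apply defP_iff (by
    repeat' first
      | exact defP_L _ _ (by simp) (by norm_num)
      | exact defP_R _ _ (by simp) (by norm_num)
      | exact defP_P _ _ (by simp) (by norm_num)
      | exact defP_X _ _ (by simp) (by norm_num) (by simp) (by norm_num)
      | exact defP_E _ _ _ (by simp) (by norm_num) (by simp) (by norm_num)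
      | exact defP_eq _ _ (by simp) (by norm_num) (by simp) (by norm_num)
      | exact defP_const' _
      | apply defP_not
      | apply defP_and
      | apply defP_iff
      | apply defP_all
      | intro _
      | apply defP_imp)
    exact form2_E1 (fun S x z _ => (ofStr S).E ((nd ψ p).env i) x z ∧
      (ofStr S).E ((nd ψ p).env j) x z) (by
    repeat' first
      | exact defP_L _ _ (by simp) (by norm_num)
      | exact defP_R _ _ (by simp) (by norm_num)
      | exact defP_P _ _ (by simp) (by norm_num)
      | exact defP_X _ _ (by simp) (by norm_num) (by simp) (by norm_num)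
      | exact defP_E _ _ _ (by simp) (by norm_num) (by simp) (by norm_num)
      | exact defP_eq _ _ (by simp) (by norm_num) (by simp) (by norm_num)
      | exact defP_const' _
      | apply defP_not
      | apply defP_and
      | apply defP_iff
      | apply defP_all
      | intro _
      | apply defP_imp)
  · exact form2_A0 (fun S x _ _ => (ofStr S).L (nd ψ p).n x → ((ofStr S).P p x ↔
      ¬ (ofStr S).P (p ++ [0]) x)) (by
    repeat' first
      | exact defP_L _ _ (by simp) (by norm_num)
      | exact defP_R _ _ (by simp) (by norm_num)
      | exact defP_P _ _ (by simp) (by norm_num)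
      | exact defP_X _ _ (by simp) (by norm_num) (by simp) (by norm_num)
      | exact defP_E _ _ _ (by simp) (by norm_num) (by simp) (by norm_num)
      | exact defP_eq _ _ (by simp) (by norm_num) (by simp) (by norm_num)
      | exact defP_const' _
      | apply defP_not
      | apply defP_and
      | apply defP_iff
      | apply defP_all
      | intro _
      | apply defP_imp)
  · exact form2_A0 (fun S x _ _ => (ofStr S).L (nd ψ p).n x → ((ofStr S).P p x ↔
      ∀ k, (ofStr S).P (p ++ [k]) x)) (by
    repeat' first
      | exact defP_L _ _ (by simp) (by norm_num)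
      | exact defP_R _ _ (by simp) (by norm_num)
      | exact defP_P _ _ (by simp) (by norm_num)
      | exact defP_X _ _ (by simp) (by norm_num) (by simp) (by norm_num)
      | exact defP_E _ _ _ (by simp) (by norm_num) (by simp) (by norm_num)
      | exact defP_eq _ _ (by simp) (by norm_num) (by simp) (by norm_num)
      | exact defP_const' _
      | apply defP_not
      | apply defP_and
      | apply defP_iff
      | apply defP_all
      | intro _
      | apply defP_imp)
  · refine form2_A0 (fun S x _ _ => (ofStr S).L (nd ψ p).n x → ((ofStr S).P p x ↔
      ∃ y, (ofStr S).X x y ∧ (ofStr S).P (p ++ [0]) y)) ?_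
    apply defP_imp (by
    repeat' first
      | exact defP_L _ _ (by simp) (by norm_num)
      | exact defP_R _ _ (by simp) (by norm_num)
      | exact defP_P _ _ (by simp) (by norm_num)
      | exact defP_X _ _ (by simp) (by norm_num) (by simp) (by norm_num)
      | exact defP_E _ _ _ (by simp) (by norm_num) (by simp) (by norm_num)
      | exact defP_eq _ _ (by simp) (by norm_num) (by simp) (by norm_num)
      | exact defP_const' _
      | apply defP_not
      | apply defP_and
      | apply defP_iff
      | apply defP_all
      | intro _
      | apply defP_imp)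
    apply defP_iff (by
    repeat' first
      | exact defP_L _ _ (by simp) (by norm_num)
      | exact defP_R _ _ (by simp) (by norm_num)
      | exact defP_P _ _ (by simp) (by norm_num)
      | exact defP_X _ _ (by simp) (by norm_num) (by simp) (by norm_num)
      | exact defP_E _ _ _ (by simp) (by norm_num) (by simp) (by norm_num)
      | exact defP_eq _ _ (by simp) (by norm_num) (by simp) (by norm_num)
      | exact defP_const' _
      | apply defP_not
      | apply defP_and
      | apply defP_iff
      | apply defP_all
      | intro _
      | apply defP_imp)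
    exact form2_E1 (fun S x y _ => (ofStr S).X x y ∧ (ofStr S).P (p ++ [0]) y) (by
    repeat' first
      | exact defP_L _ _ (by simp) (by norm_num)
      | exact defP_R _ _ (by simp) (by norm_num)
      | exact defP_P _ _ (by simp) (by norm_num)
      | exact defP_X _ _ (by simp) (by norm_num) (by simp) (by norm_num)
      | exact defP_E _ _ _ (by simp) (by norm_num) (by simp) (by norm_num)
      | exact defP_eq _ _ (by simp) (by norm_num) (by simp) (by norm_num)
      | exact defP_const' _
      | apply defP_not
      | apply defP_and
      | apply defP_iff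
      | apply defP_all
      | intro _
      | apply defP_imp)

/-- PROOF. `Ax ψ (ofStr S)` is the conjunction of its 17 fields. Every field is of the shape
`∀ (countable parameters), ∀ x (∀ y (∀ z ...))` with at most three nested element quantifiers and is
expressed with the lemmas of `Form.lean` (element variables 0, 1, 2; `Function.update` is evaluated
with `simp`). Parameters with a condition (`j < n`, `i : Fin (a m)`, `n ≠ m`): write the condition as
a constant formula (`defP_const`, there is a free variable `x` under the first quantifier), or
quantify over the subtype. For `pax` fix `p` and split on `(nd ψ p).f`. Suggested: prove one lemma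
per field, `DefP 3 ∅ (fun S _ => field)`, then combine them with `defP_and` (or `defP_all` over
`Fin 17`); finally `S ∈ Mod φ ↔ ∀ v, Sat S φ v ↔ Ax ψ (ofStr S)`. -/
theorem axF_exists {a : ℕ → ℕ} (ψ : Fml a) :
    ∃ φ : Fml aS, Sentence φ ∧ VarsLt 3 φ ∧ QRLe 3 φ ∧ ∀ S, S ∈ Mod φ ↔ Ax ψ (ofStr S) := by
  have h := defP_and form2_len <| defP_and form2_len' <| defP_and form2_emp <|
    defP_and form2_emp' <| defP_and form2_ent <| defP_and form2_ent' <| defP_and form2_ent'' <|
    defP_and form2_entu <| defP_and form2_one <| defP_and form2_extn <| defP_and form2_ext <|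
    defP_and form2_extd <| defP_and (form2_rel a) <| defP_and (form2_pln ψ) <|
    defP_and (defP_all (form2_pax ψ)) <| defP_and form2_root form2_inf
  obtain ⟨φ, h1, h2, h3, h4⟩ := h
  refine ⟨φ, h1, h2, h3, fun S => ?_⟩
  have h5 : S ∈ Mod φ ↔ ∀ v : ℕ → ℕ, Sat S φ v := Iff.rfl
  simp only [h5, h4]
  constructor
  · intro h
    obtain ⟨g1, g2, g3, g4, g5, g6, g7, g8, g9, g10, g11, g12, g13, g14, g15, g16, g17⟩ := h 0
    exact ⟨g1, g2, g3, g4, g5, g6, g7, g8, g9, g10, g11, g12, g13, g14, g15, g16, g17⟩
  · rintro ⟨g1, g2, g3, g4, g5, g6, g7, g8, g9, g10, g11, g12, g13, g14, g15, g16, g17⟩ v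
    exact ⟨g1, g2, g3, g4, g5, g6, g7, g8, g9, g10, g11, g12, g13, g14, g15, g16, g17⟩

end Pool.H17.TW
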