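import Pool.Agent.H17.TW.Defs

/-!
# Satisfaction depends on the free variables only; nodes of a sentence
-/

set_option autoImplicit false

namespace Pool.H17.TW

open Pool.H17.TV

theorem freeIn_mono {a : ℕ → ℕ} {s s' : Set ℕ} (hs : s ⊆ s') (φ : Fml a) (h : FreeIn s φ) :
    FreeIn s' φ := by
  induction φ generalizing s s' with
  | rel n t => exact fun i => hs (h i)
  | eq i j => exact ⟨hs h.1, hs h.2⟩
  | neg φ ih => exact ih hs h
  | conj φ ih => exact fun k => ih k hs (h k)
  | ex i φ ih => exact ih (Set.insert_subset_insert hs) h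

/-- Induction on `φ`. -/
theorem sat_congr {a : ℕ → ℕ} (M : Str a) (φ : Fml a) (s : Set ℕ) (h : FreeIn s φ)
    (v w : ℕ → ℕ) (hvw : ∀ i ∈ s, v i = w i) : Sat M φ v ↔ Sat M φ w := by
  induction φ generalizing s v w with
  | rel n t =>
    have h1 : (fun i => v (t i)) = fun i => w (t i) := funext fun i => hvw _ (h i)
    change M n (fun i => v (t i)) = true ↔ M n (fun i => w (t i)) = true
    rw [h1]
  | eq i j =>
    change v i = v j ↔ w i = w j
    rw [hvw i h.1, hvw j h.2]
  | neg φ ih =>
    change ¬ Sat M φ v ↔ ¬ Sat M φ w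
    rw [ih s h v w hvw]
  | conj φ ih =>
    change (∀ k, Sat M (φ k) v) ↔ ∀ k, Sat M (φ k) w
    exact forall_congr' fun k => ih k s (h k) v w hvw
  | ex i φ ih =>
    change (∃ x, Sat M φ (Function.update v i x)) ↔ ∃ x, Sat M φ (Function.update w i x)
    refine exists_congr fun x => ih (insert i s) h _ _ ?_
    intro j hj
    by_cases hji : j = i
    · subst hji; simp
    · rw [Function.update_of_ne hji, Function.update_of_ne hji]
      exact hvw j (hj.resolve_left hji)

/-- An isomorphism preserves satisfaction. Induction on `φ`. -/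
theorem sat_iso {a : ℕ → ℕ} (M N : Str a) (σ : Equiv.Perm ℕ)
    (hσ : ∀ (n : ℕ) (t : Fin (a n) → ℕ), N n (fun i => σ (t i)) = M n t) (φ : Fml a) (v : ℕ → ℕ) :
    Sat N φ (fun i => σ (v i)) ↔ Sat M φ v := by
  induction φ generalizing v with
  | rel n t =>
    change N n (fun i => σ (v (t i))) = true ↔ M n (fun i => v (t i)) = true
    rw [hσ n (fun i => v (t i))]
  | eq i j =>
    change σ (v i) = σ (v j) ↔ v i = v j
    exact σ.injective.eq_iff
  | neg φ ih =>
    change ¬ Sat N φ _ ↔ ¬ Sat M φ v
    rw [ih v]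
  | conj φ ih =>
    change (∀ k, Sat N (φ k) _) ↔ ∀ k, Sat M (φ k) v
    exact forall_congr' fun k => ih k v
  | ex i φ ih =>
    change (∃ x, Sat N φ (Function.update (fun j => σ (v j)) i x)) ↔
      ∃ x, Sat M φ (Function.update v i x)
    have hu : ∀ x, Function.update (fun j => σ (v j)) i (σ x) =
        fun j => σ (Function.update v i x j) := by
      intro x
      funext j
      by_cases hji : j = i
      · subst hji; simp
      · rw [Function.update_of_ne hji, Function.update_of_ne hji]
    constructor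
    · rintro ⟨x, hx⟩
      refine ⟨σ.symm x, ?_⟩
      rw [← ih, ← hu, σ.apply_symm_apply]
      exact hx
    · rintro ⟨x, hx⟩
      refine ⟨σ x, ?_⟩
      rw [hu, ih]
      exact hx

theorem nd_snoc {a : ℕ → ℕ} (ψ : Fml a) (p : List ℕ) (k : ℕ) :
    nd ψ (p ++ [k]) = (nd ψ p).child k := by
  simp [nd, List.foldl_append]

/-- One step of the induction of `nd_free`. -/
theorem free_child {a : ℕ → ℕ} (N : Node a) (k : ℕ)
    (h : ∃ s : Set ℕ, FreeIn s N.f ∧ ∀ i ∈ s, N.env i < N.n) :
    ∃ s : Set ℕ, FreeIn s (N.child k).f ∧ ∀ i ∈ s, (N.child k).env i < (N.child k).n := by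
  obtain ⟨n, env, f⟩ := N
  obtain ⟨s, hs, hl⟩ := h
  cases f with
  | rel m t => exact ⟨s, hs, hl⟩
  | eq i j => exact ⟨s, hs, hl⟩
  | neg φ => exact ⟨s, hs, hl⟩
  | conj φ => exact ⟨s, hs k, hl⟩
  | ex i φ =>
    refine ⟨insert i s, hs, ?_⟩
    intro j hj
    change Function.update env i n j < n + 1
    by_cases hji : j = i
    · subst hji; simp
    · rw [Function.update_of_ne hji]
      have : env j < n := hl j (hj.resolve_left hji)
      omega

/-- Induction on `p` from the right (`List.reverseRecOn` or `List.foldl` invariants). The environment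
is `fun _ => 0` at the root (there `s = ∅`); at an `ex i` node the set becomes `insert i s`, `n`
becomes `n + 1` and `env i = n < n + 1`. -/
theorem nd_free {a : ℕ → ℕ} (ψ : Fml a) (hψ : Sentence ψ) (p : List ℕ) :
    ∃ s : Set ℕ, FreeIn s (nd ψ p).f ∧ ∀ i ∈ s, (nd ψ p).env i < (nd ψ p).n := by
  induction p using List.reverseRecOn with
  | nil => exact ⟨∅, hψ, fun i hi => absurd hi (Set.notMem_empty i)⟩
  | append_singleton p k ih =>
    rw [nd_snoc]
    exact free_child _ k ih

/-- For a sentence the models are described by any single assignment. -/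
theorem mod_iff {a : ℕ → ℕ} (ψ : Fml a) (hψ : Sentence ψ) (M : Str a) (v : ℕ → ℕ) :
    M ∈ Mod ψ ↔ Sat M ψ v := by
  constructor
  · intro h
    exact h v
  · intro h w
    exact (sat_congr M ψ ∅ hψ w v (fun i hi => absurd hi (Set.notMem_empty i))).2 h

end Pool.H17.TW
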