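import Mathlib

/-!
# Generic permutations (for the theorem of Lopez-Escobar)
-/

set_option autoImplicit false

namespace Pool.H17.TW

/-- initial segment of a permutation -/
def ini (g : Equiv.Perm ℕ) (n : ℕ) : List ℕ := (List.range n).map g

/-- dense set of finite injective sequences -/
def Dns (D : Set (List ℕ)) : Prop :=
  ∀ u : List ℕ, u.Nodup → ∃ w : List ℕ, w.Nodup ∧ u <+: w ∧ w ∈ D

/-- `g` meets all sets `D k` -/
def Gen (D : ℕ → Set (List ℕ)) (g : Equiv.Perm ℕ) : Prop := ∀ k, ∃ n, ini g n ∈ D k

theorem ini_length (g : Equiv.Perm ℕ) (n : ℕ) : (ini g n).length = n := by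
  simp [ini]

theorem ini_nodup (g : Equiv.Perm ℕ) (n : ℕ) : (ini g n).Nodup :=
  List.Nodup.map g.injective List.nodup_range

theorem ini_prefix (g : Equiv.Perm ℕ) (n m : ℕ) (h : n ≤ m) : ini g n <+: ini g m := by
  have e : ini g n = (ini g m).take n := by
    apply List.ext_getElem
    · rw [List.length_take, ini_length, ini_length]; omega
    · intro i h1 h2
      simp [ini]
  rw [e]
  exact List.take_prefix _ _

theorem LeA_step (D : Set (List ℕ)) (hD : Dns D) (k : ℕ) (l : List ℕ) (hl : l.Nodup) :
    ∃ l' : List ℕ, l'.Nodup ∧ l <+: l' ∧ (∃ p, p <+: l' ∧ p ∈ D) ∧ k ∈ l' ∧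
      l.length < l'.length := by
  obtain ⟨w, hw, hlw, hwD⟩ := hD l hl
  obtain ⟨q, hq⟩ := Infinite.exists_notMem_finset (insert k w.toFinset)
  rw [Finset.mem_insert, List.mem_toFinset, not_or] at hq
  by_cases hk : k ∈ w
  · refine ⟨w ++ [q], ?_, hlw.trans (List.prefix_append _ _), ⟨w, List.prefix_append _ _, hwD⟩,
      by simp [hk], ?_⟩
    · rw [List.nodup_append]
      refine ⟨hw, by simp, ?_⟩
      intro a ha b hb
      rw [List.mem_singleton] at hb
      rintro rfl
      exact hq.2 (hb ▸ ha)
    · have := hlw.length_le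
      simp; omega
  · refine ⟨w ++ [q, k], ?_, hlw.trans (List.prefix_append _ _), ⟨w, List.prefix_append _ _, hwD⟩,
      by simp, ?_⟩
    · rw [List.nodup_append]
      refine ⟨hw, by simp [hq.1], ?_⟩
      intro a ha b hb
      simp only [List.mem_cons, List.not_mem_nil, or_false] at hb
      rintro rfl
      rcases hb with hb | hb
      · exact hq.2 (hb ▸ ha)
      · exact hk (hb ▸ ha)
    · have := hlw.length_le
      simp; omega

/-- PROOF. Build `u = w 0 <+: w 1 <+: ...`, all `Nodup`: `w (2k+1)` extends `w (2k)` and lies in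
`D k`; `w (2k+2)` is obtained from `w (2k+1)` by appending a fresh number (larger than all entries)
and, if `k` is still missing, `k`. The lengths tend to infinity, `g i` is the `i`-th entry of `w k` for
large `k`; `g` is injective (nodup) and surjective (`k` occurs in `w (2k+2)`). -/
theorem gen_exists (D : ℕ → Set (List ℕ)) (hD : ∀ k, Dns (D k)) (u : List ℕ) (hu : u.Nodup) :
    ∃ g : Equiv.Perm ℕ, ini g u.length = u ∧ Gen D g := by
  have hstep := fun k l hl => LeA_step (D k) (hD k) k l hl
  choose E hE1 hE2 hE3 hE4 hE5 using hstep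
  let W : ℕ → {l : List ℕ // l.Nodup} := fun n =>
    Nat.rec ⟨u, hu⟩ (fun k l => ⟨E k l.1 l.2, hE1 k l.1 l.2⟩) n
  have W0 : (W 0).1 = u := rfl
  have WS : ∀ k, (W (k + 1)).1 = E k (W k).1 (W k).2 := fun k => rfl
  have Wpre : ∀ a b, a ≤ b → (W a).1 <+: (W b).1 := by
    intro a b hab
    induction b, hab using Nat.le_induction with
    | base => exact List.prefix_refl _
    | succ b _ ih => exact ih.trans (by rw [WS]; exact hE2 b _ _)
  have Wlen : ∀ k, k ≤ (W k).1.length := by
    intro k
    induction k with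
    | zero => exact Nat.zero_le _
    | succ k ih =>
      have := hE5 k (W k).1 (W k).2
      rw [WS]; omega
  let f : ℕ → ℕ := fun i => (W (i + 1)).1[i]'(Wlen (i + 1))
  have hf : ∀ m i (h : i < (W m).1.length), (W m).1[i] = f i := by
    intro m i h
    rcases le_total m (i + 1) with h1 | h1
    · exact (Wpre _ _ h1).getElem h
    · exact ((Wpre _ _ h1).getElem (Wlen (i + 1))).symm
  have finj : Function.Injective f := by
    intro i j hij
    have hi : i < (W (i + j + 1)).1.length := by have := Wlen (i + j + 1); omega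
    have hj : j < (W (i + j + 1)).1.length := by have := Wlen (i + j + 1); omega
    rw [← hf (i + j + 1) i hi, ← hf (i + j + 1) j hj] at hij
    exact (List.Nodup.getElem_inj_iff (W (i + j + 1)).2).1 hij
  have fsurj : Function.Surjective f := by
    intro k
    have hk : k ∈ (W (k + 1)).1 := by rw [WS]; exact hE4 k _ _
    obtain ⟨i, hi, hik⟩ := List.getElem_of_mem hk
    exact ⟨i, by rw [← hf (k + 1) i hi, hik]⟩
  let g : Equiv.Perm ℕ := Equiv.ofBijective f ⟨finj, fsurj⟩
  have hg : ∀ i, g i = f i := fun i => rfl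
  have key : ∀ m (p : List ℕ), p <+: (W m).1 → ini g p.length = p := by
    intro m p hp
    apply List.ext_getElem
    · rw [ini_length]
    · intro i h1 h2
      have h3 : i < (W m).1.length := lt_of_lt_of_le h2 hp.length_le
      rw [hp.getElem h2, hf m i h3]
      simp [ini, hg]
  refine ⟨g, key 0 u (by rw [W0]), fun k => ?_⟩
  obtain ⟨p, hp, hpD⟩ := hE3 k (W k).1 (W k).2
  refine ⟨p.length, ?_⟩
  rw [key (k + 1) p (by rw [WS]; exact hp)]
  exact hpD

end Pool.H17.TW
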