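import Pool.Agent.H17.TW.Free

/-!
# Formulas for the theorem of Lopez-Escobar
-/

set_option autoImplicit false

namespace Pool.H17.TW

open Pool.H17.TV

/-- `∃ x_n, ..., x_{n + k - 1}` -/
def exs {a : ℕ → ℕ} (n : ℕ) : ℕ → Fml a → Fml a
  | 0, φ => φ
  | k + 1, φ => .ex (n + k) (exs n k φ)

/-- Induction on `k`, for all `v`. -/
theorem exs_sat {a : ℕ → ℕ} (M : Str a) (n k : ℕ) (φ : Fml a) (v : ℕ → ℕ) :
    Sat M (exs n k φ) v ↔ ∃ w : ℕ → ℕ, (∀ i, (i < n ∨ n + k ≤ i) → w i = v i) ∧ Sat M φ w := by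
  induction k generalizing v with
  | zero =>
    constructor
    · intro h
      exact ⟨v, fun _ _ => rfl, h⟩
    · rintro ⟨w, hw, h⟩
      have : w = v := funext fun i => hw i (by omega)
      rwa [this] at h
  | succ k ih =>
    change (∃ x, Sat M (exs n k φ) (Function.update v (n + k) x)) ↔ _
    constructor
    · rintro ⟨x, hx⟩
      obtain ⟨w, hw, h⟩ := (ih _).1 hx
      refine ⟨w, fun i hi => ?_, h⟩
      rw [hw i (by omega), Function.update_of_ne (by omega)]
    · rintro ⟨w, hw, h⟩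
      refine ⟨w (n + k), (ih _).2 ⟨w, fun i hi => ?_, h⟩⟩
      by_cases hik : i = n + k
      · subst hik; rw [Function.update_self]
      · rw [Function.update_of_ne hik]
        exact hw i (by omega)

/-- Show `FreeIn (s ∪ {i | n ≤ i ∧ i < n + k}) φ → FreeIn s (exs n k φ)` by induction on `k`. -/
theorem exs_free {a : ℕ → ℕ} (n k : ℕ) (φ : Fml a) (h : FreeIn {i | i < n + k} φ) :
    FreeIn {i | i < n} (exs n k φ) := by
  have key : ∀ (k : ℕ) (s : Set ℕ), FreeIn (s ∪ {i | n ≤ i ∧ i < n + k}) φ →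
      FreeIn s (exs n k φ) := by
    intro k
    induction k with
    | zero =>
      intro s hs
      refine freeIn_mono ?_ φ hs
      rintro i (hi | ⟨h1, h2⟩)
      · exact hi
      · omega
    | succ k ih =>
      intro s hs
      change FreeIn (insert (n + k) s) (exs n k φ)
      apply ih
      refine freeIn_mono ?_ φ hs
      rintro i (hi | ⟨h1, h2⟩)
      · exact Or.inl (Or.inr hi)
      · by_cases hik : i = n + k
        · exact Or.inl (Or.inl hik)
        · exact Or.inr ⟨h1, by omega⟩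
  apply key
  refine freeIn_mono ?_ φ h
  intro i hi
  change i < n + k at hi
  by_cases hin : i < n
  · exact Or.inl hin
  · exact Or.inr ⟨by omega, hi⟩

/-- countable disjunction -/
def disj {a : ℕ → ℕ} (φ : ℕ → Fml a) : Fml a := .neg (.conj (fun k => .neg (φ k)))

theorem disj_sat {a : ℕ → ℕ} (M : Str a) (φ : ℕ → Fml a) (v : ℕ → ℕ) :
    Sat M (disj φ) v ↔ ∃ k, Sat M (φ k) v := by
  change (¬ ∀ k, ¬ Sat M (φ k) v) ↔ _
  push Not
  rfl

theorem disj_free {a : ℕ → ℕ} (s : Set ℕ) (φ : ℕ → Fml a) (h : ∀ k, FreeIn s (φ k)) :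
    FreeIn s (disj φ) := h

/-- `φ ∧ χ` -/
def conj2 {a : ℕ → ℕ} (φ χ : Fml a) : Fml a := .conj (fun k => if k = 0 then φ else χ)

theorem conj2_sat {a : ℕ → ℕ} (M : Str a) (φ χ : Fml a) (v : ℕ → ℕ) :
    Sat M (conj2 φ χ) v ↔ Sat M φ v ∧ Sat M χ v := by
  change (∀ k, Sat M (if k = 0 then φ else χ) v) ↔ _
  constructor
  · intro h
    have h0 := h 0
    have h1 := h 1
    rw [if_pos rfl] at h0
    rw [if_neg one_ne_zero] at h1
    exact ⟨h0, h1⟩
  · rintro ⟨h0, h1⟩ k
    split_ifs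
    · exact h0
    · exact h1

theorem conj2_free {a : ℕ → ℕ} (s : Set ℕ) (φ χ : Fml a) (h : FreeIn s φ) (h' : FreeIn s χ) :
    FreeIn s (conj2 φ χ) := by
  change ∀ k : ℕ, FreeIn s (if k = 0 then φ else χ)
  intro k
  split_ifs
  · exact h
  · exact h'

/-- true sentence -/
def tru {a : ℕ → ℕ} : Fml a := .ex 0 (.eq 0 0)

/-- the variables `x_0, ..., x_{m-1}` have different values -/
def dst {a : ℕ → ℕ} (m : ℕ) : Fml a :=
  .conj (fun k => .conj (fun l => if k < l ∧ l < m then .neg (.eq k l) else tru))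

theorem dst_sat {a : ℕ → ℕ} (M : Str a) (m : ℕ) (v : ℕ → ℕ) :
    Sat M (dst m) v ↔ ∀ k l, k < l → l < m → v k ≠ v l := by
  change (∀ k l : ℕ, Sat M (if k < l ∧ l < m then .neg (.eq k l) else tru) v) ↔ _
  constructor
  · intro h k l hkl hlm
    have := h k l
    rw [if_pos ⟨hkl, hlm⟩] at this
    exact this
  · intro h k l
    split_ifs with hc
    · exact h k l hc.1 hc.2
    · exact ⟨0, rfl⟩

theorem dst_free {a : ℕ → ℕ} (m : ℕ) : FreeIn {i | i < m} (dst (a := a) m) := by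
  change ∀ k l : ℕ, FreeIn {i | i < m} (if k < l ∧ l < m then .neg (.eq k l) else tru)
  intro k l
  split_ifs with hc
  · exact ⟨hc.1.trans hc.2, hc.2⟩
  · exact ⟨Or.inl rfl, Or.inl rfl⟩

end Pool.H17.TW
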