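import Pool.Agent.H17.TW.LeA
import Pool.Agent.H17.TW.LeB
import Pool.Agent.H17.TW.DecM

/-!
# Forcing description of Borel sets of structures
-/

set_option autoImplicit false

namespace Pool.H17.TW

open Pool.H17.TV

/-- the structure pulled back by `g` (isomorphic to `M` via `g`) -/
def pull {a : ℕ → ℕ} (M : Str a) (g : Equiv.Perm ℕ) : Str a := fun n t => M n (fun i => g (t i))

/-- For generic `g` the membership of `pull M g` in `A` is decided by formulas about initial segments
of `g`. -/
def Forc {a : ℕ → ℕ} (A : Set (Str a)) : Prop :=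
  ∃ F : ℕ → Fml a, (∀ n, FreeIn {i | i < n} (F n)) ∧
    ∀ M : Str a, ∃ D : ℕ → Set (List ℕ), (∀ k, Dns (D k)) ∧
      ∀ g : Equiv.Perm ℕ, Gen D g → (pull M g ∈ A ↔ ∃ n, Sat M (F n) (fun i => g i))

/-- `F k = rel n t` if all `t i < k`, and a false formula `neg tru` otherwise; `D k` everything. -/
theorem forc_basic {a : ℕ → ℕ} (n : ℕ) (t : Fin (a n) → ℕ) :
    Forc {M : Str a | M n t = true} := by
  classical
  have htru : ∀ (M : Str a) (v : ℕ → ℕ), Sat M (tru (a := a)) v := fun M v => ⟨0, rfl⟩
  refine ⟨fun k => if ∀ i, t i < k then .rel n t else .neg tru, ?_, ?_⟩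
  · intro k
    by_cases h : ∀ i, t i < k
    · simp only [h, implies_true, if_true]
      exact h
    · simp only [h, if_false]
      exact ⟨Set.mem_insert _ _, Set.mem_insert _ _⟩
  · intro M
    refine ⟨fun _ => Set.univ, fun _ u hu => ⟨u, hu, List.prefix_rfl, trivial⟩, fun g _ => ?_⟩
    constructor
    · intro h
      have hk : ∀ i, t i < Finset.univ.sup t + 1 := fun i =>
        Nat.lt_succ_of_le (Finset.le_sup (f := t) (Finset.mem_univ i))
      refine ⟨Finset.univ.sup t + 1, ?_⟩
      simp only [hk, implies_true, if_true]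
      exact h
    · rintro ⟨k, hk⟩
      by_cases h : ∀ i, t i < k
      · simp only [h, implies_true, if_true] at hk
        exact hk
      · simp only [h, if_false] at hk
        exact absurd (htru M _) hk

theorem forc_empty {a : ℕ → ℕ} : Forc (∅ : Set (Str a)) := by
  have htru : ∀ (M : Str a) (v : ℕ → ℕ), Sat M (tru (a := a)) v := fun M v => ⟨0, rfl⟩
  refine ⟨fun _ => .neg tru, fun _ => ⟨Set.mem_insert _ _, Set.mem_insert _ _⟩, fun M => ?_⟩
  refine ⟨fun _ => Set.univ, fun _ u hu => ⟨u, hu, List.prefix_rfl, trivial⟩, fun g _ => ?_⟩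
  constructor
  · exact fun h => absurd h (Set.notMem_empty _)
  · rintro ⟨_, h⟩
    exact absurd (htru M _) h

theorem lec_getD_ini (g : Equiv.Perm ℕ) {n i : ℕ} (hi : i < n) : (ini g n).getD i 0 = g i := by
  simp [ini, hi]

theorem lec_getD_map (f : ℕ → ℕ) {n i : ℕ} (hi : i < n) :
    ((List.range n).map f).getD i 0 = f i := by
  simp [hi]

/-- PROOF. New formulas `F' n = ⋀_m ¬ exs n (m - n) (dst m ∧ F m)` (note `m - n` is `0` when `m ≤ n`).
So `M ⊨ F' n (u)` (for `u` injective of length `n`) says: no injective sequence of length `m`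
compatible with `u` (extending it, or an initial segment of it) satisfies `F m`.
New dense sets: the old ones (at `2k`, say) and the set `D*` (at `2k+1`) of all nodup lists `w` such
that, with `v = fun i => w.getD i 0`, either `Sat M (F m) v` for some `m ≤ w.length`, or
`Sat M (F' w.length) v`. It is dense: if `u` does not satisfy the second alternative then for some
`m` there are values of `x_n, ..., x_{m-1}` with `dst m ∧ F m`; the list of the values of
`x_0, ..., x_{max n m - 1}` is as required (for `m ≤ n` it is `u` itself).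
For generic `g`: if `Sat M (F' n) g` then `F m (g)` fails for all `m`, since `g` restricted to
`max n m` is a witness (`exs_sat`). Conversely, if `F m (g)` fails for all `m`, take `n` with
`ini g n ∈ D*`: the first alternative is impossible (`sat_congr`), so `Sat M (F' n) g`. -/
theorem forc_compl {a : ℕ → ℕ} (A : Set (Str a)) (h : Forc A) : Forc Aᶜ := by
  obtain ⟨F, hF, hA⟩ := h
  let F' : ℕ → Fml a := fun n =>
    .conj (fun m => .neg (exs n (m - n) (conj2 (dst m) (F m))))
  have hF' : ∀ n, FreeIn {i | i < n} (F' n) := by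
    intro n m
    refine exs_free n (m - n) _ (conj2_free _ _ _ ?_ ?_)
    · exact freeIn_mono (fun i (hi : i < m) => by
        change i < n + (m - n)
        omega) _ (dst_free m)
    · exact freeIn_mono (fun i (hi : i < m) => by
        change i < n + (m - n)
        omega) _ (hF m)
  have hS : ∀ (M : Str a) (n : ℕ) (v : ℕ → ℕ), Sat M (F' n) v ↔ ∀ m, ¬ ∃ w : ℕ → ℕ,
      (∀ i, (i < n ∨ n + (m - n) ≤ i) → w i = v i) ∧ (∀ k l, k < l → l < m → w k ≠ w l) ∧
      Sat M (F m) w := by
    intro M n v
    refine forall_congr' fun m => not_congr ?_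
    rw [exs_sat]
    refine exists_congr fun w => and_congr_right fun _ => ?_
    rw [conj2_sat, dst_sat]
  refine ⟨F', hF', fun M => ?_⟩
  obtain ⟨D, hD, hg⟩ := hA M
  let Ds : Set (List ℕ) := {w | (∃ m ≤ w.length, Sat M (F m) (fun i => w.getD i 0)) ∨
    Sat M (F' w.length) (fun i => w.getD i 0)}
  have hDs : Dns Ds := by
    intro u hu
    by_cases h2 : Sat M (F' u.length) (fun i => u.getD i 0)
    · exact ⟨u, hu, List.prefix_rfl, Or.inr h2⟩
    · rw [hS] at h2
      push Not at h2
      obtain ⟨m, w0, hw1, hw2, hw3⟩ := h2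
      have hun : ∀ k l, k < l → l < u.length → w0 k ≠ w0 l := by
        intro k l hkl hl
        rw [hw1 k (Or.inl (hkl.trans hl)), hw1 l (Or.inl hl)]
        have e1 : u.getD k 0 = u[k]'(hkl.trans hl) := by
          rw [List.getD_eq_getElem _ _ (hkl.trans hl)]
        have e2 : u.getD l 0 = u[l]'hl := by rw [List.getD_eq_getElem _ _ hl]
        rw [e1, e2]
        intro h
        have := (hu.getElem_inj_iff (hi := hkl.trans hl) (hj := hl)).1 h
        omega
      have hinj : ∀ k l, k < l → l < u.length + (m - u.length) → w0 k ≠ w0 l := by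
        intro k l hkl hl
        by_cases hm : m ≤ u.length
        · exact hun k l hkl (by omega)
        · exact hw2 k l hkl (by omega)
      refine ⟨(List.range (u.length + (m - u.length))).map w0, ?_, ?_, Or.inl ⟨m, ?_, ?_⟩⟩
      · refine List.Nodup.map_on ?_ List.nodup_range
        intro x hx y hy hxy
        rw [List.mem_range] at hx hy
        by_contra hne
        rcases Nat.lt_or_gt_of_ne hne with h | h
        · exact hinj x y h hy hxy
        · exact hinj y x h hx hxy.symm
      · rw [List.prefix_iff_eq_take]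
        apply List.ext_getElem
        · simp
        · intro i h1 h2
          simp only [List.getElem_take, List.getElem_map, List.getElem_range]
          rw [hw1 i (Or.inl h1), List.getD_eq_getElem _ _ h1]
      · rw [List.length_map, List.length_range]
        omega
      · refine (sat_congr M (F m) _ (hF m) _ _ fun i (hi : i < m) => ?_).1 hw3
        exact (lec_getD_map w0 (by omega)).symm
  refine ⟨fun k => if k % 2 = 0 then D (k / 2) else Ds, ?_, fun g hgen => ?_⟩
  · intro k
    by_cases hk : k % 2 = 0
    · simp only [hk, if_true]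
      exact hD _
    · simp only [hk, if_false]
      exact hDs
  · have hgD : Gen D g := by
      intro k
      obtain ⟨n, hn⟩ := hgen (2 * k)
      refine ⟨n, ?_⟩
      simpa using hn
    have hgA := hg g hgD
    rw [Set.mem_compl_iff, hgA]
    constructor
    · intro hno
      push Not at hno
      obtain ⟨n, hn⟩ := hgen 1
      simp only [Nat.one_mod, one_ne_zero, if_false] at hn
      rcases hn with ⟨m, hm, hsat⟩ | hsat
      · rw [ini_length] at hm
        exact absurd ((sat_congr M (F m) _ (hF m) _ _ fun i (hi : i < m) =>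
          lec_getD_ini g (hi.trans_le hm)).1 hsat) (hno m)
      · rw [ini_length] at hsat
        exact ⟨n, (sat_congr M (F' n) _ (hF' n) _ _ fun i (hi : i < n) =>
          lec_getD_ini g hi).1 hsat⟩
    · rintro ⟨n, hn⟩ ⟨m, hm⟩
      rw [hS] at hn
      exact hn m ⟨fun i => g i, fun _ _ => rfl,
        fun k l hkl _ h => absurd (g.injective h) (by omega), hm⟩

/-- `F n = ⋁_k F^k n`; the dense sets of all `k` together (`Nat.unpair`). -/
theorem forc_iUnion {a : ℕ → ℕ} (A : ℕ → Set (Str a)) (h : ∀ k, Forc (A k)) :
    Forc (⋃ k, A k) := by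
  choose F hF hA using h
  refine ⟨fun n => disj (fun k => F k n), fun n => disj_free _ _ fun k => hF k n, fun M => ?_⟩
  choose D hD hg using fun k => hA k M
  refine ⟨fun j => D (Nat.unpair j).1 (Nat.unpair j).2, fun j => hD _ _, fun g hgen => ?_⟩
  have hG : ∀ k, Gen (D k) g := by
    intro k i
    obtain ⟨n, hn⟩ := hgen (Nat.pair k i)
    refine ⟨n, ?_⟩
    simpa using hn
  rw [Set.mem_iUnion]
  constructor
  · rintro ⟨k, hk⟩
    obtain ⟨n, hn⟩ := (hg k g (hG k)).1 hk
    exact ⟨n, (disj_sat M _ _).2 ⟨k, hn⟩⟩
  · rintro ⟨n, hn⟩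
    obtain ⟨k, hk⟩ := (disj_sat M _ _).1 hn
    exact ⟨k, (hg k g (hG k)).2 ⟨n, hk⟩⟩

/-- The Borel sets are generated by the sets `{M | M n t = true}` (`borel_str` and the definition of
the product σ-algebra). The empty set is `A ∩ Aᶜ` or treat it directly with false formulas. -/
theorem forc_meas {a : ℕ → ℕ} (A : Set (Str a)) (hA : @MeasurableSet (Str a) (borel (Str a)) A) :
    Forc A := by
  rw [← (borel_str a).measurable_eq] at hA
  let m' : MeasurableSpace (Str a) :=
    { MeasurableSet' := Forc
      measurableSet_empty := forc_empty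
      measurableSet_compl := fun A h => forc_compl A h
      measurableSet_iUnion := fun f h => forc_iUnion f h }
  have h1 : @Measurable (Str a) (Str a) m' MeasurableSpace.pi id := by
    refine @measurable_pi_lambda (Str a) ℕ _ m' _ id fun n => ?_
    refine @measurable_pi_lambda (Str a) (Fin (a n) → ℕ) _ m' _ _ fun t => ?_
    refine @measurable_to_bool (Str a) m' _ ?_
    exact forc_basic n t
  exact h1 hA

end Pool.H17.TW
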