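import Pool.Agent.H17.TW.Reduce
import Pool.Agent.H17.TW.LeD

/-!
# Three variables suffice for the strong Vaught conjecture
-/

set_option autoImplicit false

namespace Pool.H17.TW

open Pool.H17.TV

theorem three_var :
    (∀ φ : Fml aS, Sentence φ → VarsLt 3 φ → QRLe 3 φ → Dich (Mod φ)) ↔
    (∀ (a : ℕ → ℕ) (B : Set (Str a)), @MeasurableSet (Str a) (borel (Str a)) B →
      (∀ x y : Str a, SIso x y → x ∈ B → y ∈ B) → Dich B) := by
  constructor
  · intro H a B hB hinv
    obtain ⟨ψ, hψ, rfl⟩ := lopez_escobar B hB hinv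
    exact reduce H ψ hψ
  · intro H φ hφ _ _
    exact H aS (Mod φ) (mod_borel φ hφ) (mod_inv φ)

end Pool.H17.TW
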