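import Pool.Agent.H17.TW.Free

/-!
# The structure of tuples satisfies the axioms
-/

set_option autoImplicit false

namespace Pool.H17.TW

open Pool.H17.TV

/-- entries of a tuple -/
theorem tupAx_getD {l : List ℕ} {j : ℕ} (h : j < l.length) : l.getD j 0 = l[j] := by
  simp [List.getD_eq_getElem?_getD, h]

theorem tupAx_pax {a : ℕ → ℕ} (ψ : Fml a) (hψ : Sentence ψ) (M : Str a) (p : List ℕ) :
    PAx ψ (tup ψ M) p := by
  obtain ⟨s, hs, henv⟩ := nd_free ψ hψ p
  unfold PAx
  split
  · rename_i m t hf
    intro x y hx hy h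
    have hx' : x.length = (nd ψ p).n := hx
    have hy' : y.length = a m := hy
    change (x.length = (nd ψ p).n ∧ Sat M (nd ψ p).f (fun i => x.getD ((nd ψ p).env i) 0)) ↔
      (y.length = a m ∧ M m (fun i => y.getD i 0) = true)
    rw [hf]
    simp only [hx', hy', true_and, Sat]
    have : (fun i => x.getD ((nd ψ p).env (t i)) 0) = fun i : Fin (a m) => y.getD i 0 := by
      funext i
      obtain ⟨z, ⟨h1, h2⟩, ⟨h3, h4⟩⟩ := h i
      rw [tupAx_getD h1, tupAx_getD h3]
      have := h2.symm.trans h4
      simpa using this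
    rw [this]
  · rename_i i j hf
    intro x hx
    have hx' : x.length = (nd ψ p).n := hx
    rw [hf] at hs
    have hi : (nd ψ p).env i < x.length := by rw [hx']; exact henv i hs.1
    have hj : (nd ψ p).env j < x.length := by rw [hx']; exact henv j hs.2
    change (x.length = (nd ψ p).n ∧ Sat M (nd ψ p).f (fun i => x.getD ((nd ψ p).env i) 0)) ↔
      ∃ z, (∃ h : (nd ψ p).env i < x.length, z = [x[(nd ψ p).env i]]) ∧
        (∃ h : (nd ψ p).env j < x.length, z = [x[(nd ψ p).env j]])
    rw [hf]
    simp only [hx', true_and, Sat]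
    rw [tupAx_getD hi, tupAx_getD hj]
    constructor
    · intro h
      exact ⟨[x[(nd ψ p).env i]], ⟨by omega, rfl⟩, by omega, by rw [h]⟩
    · rintro ⟨z, ⟨h1, h2⟩, ⟨h3, h4⟩⟩
      have := h2.symm.trans h4
      simpa using this
  · rename_i f hf
    have hc : nd ψ (p ++ [0]) = ⟨(nd ψ p).n, (nd ψ p).env, f⟩ := by
      rw [nd_snoc]
      simp only [Node.child, hf]
    intro x hx
    have hx' : x.length = (nd ψ p).n := hx
    change (x.length = (nd ψ p).n ∧ Sat M (nd ψ p).f (fun i => x.getD ((nd ψ p).env i) 0)) ↔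
      ¬ (x.length = (nd ψ (p ++ [0])).n ∧
        Sat M (nd ψ (p ++ [0])).f (fun i => x.getD ((nd ψ (p ++ [0])).env i) 0))
    rw [hc, hf]
    simp only [hx', true_and, Sat]
  · rename_i f hf
    have hc : ∀ k, nd ψ (p ++ [k]) = ⟨(nd ψ p).n, (nd ψ p).env, f k⟩ := by
      intro k
      rw [nd_snoc]
      simp only [Node.child, hf]
    intro x hx
    have hx' : x.length = (nd ψ p).n := hx
    change (x.length = (nd ψ p).n ∧ Sat M (nd ψ p).f (fun i => x.getD ((nd ψ p).env i) 0)) ↔
      ∀ k, (x.length = (nd ψ (p ++ [k])).n ∧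
        Sat M (nd ψ (p ++ [k])).f (fun i => x.getD ((nd ψ (p ++ [k])).env i) 0))
    simp only [hc]
    rw [hf]
    simp only [hx', true_and, Sat]
  · rename_i i f hf
    have hc : nd ψ (p ++ [0]) =
        ⟨(nd ψ p).n + 1, Function.update (nd ψ p).env i (nd ψ p).n, f⟩ := by
      rw [nd_snoc]
      simp only [Node.child, hf]
    intro x hx
    have hx' : x.length = (nd ψ p).n := hx
    change (x.length = (nd ψ p).n ∧ Sat M (nd ψ p).f (fun i => x.getD ((nd ψ p).env i) 0)) ↔
      ∃ y, (∃ z, y = x ++ [z]) ∧ (y.length = (nd ψ (p ++ [0])).n ∧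
        Sat M (nd ψ (p ++ [0])).f (fun i => y.getD ((nd ψ (p ++ [0])).env i) 0))
    rw [hc, hf]
    rw [hf] at hs
    simp only [hx', true_and, Sat]
    have key : ∀ z, Sat M f (Function.update (fun i => x.getD ((nd ψ p).env i) 0) i z) ↔
        Sat M f (fun i' => (x ++ [z]).getD (Function.update (nd ψ p).env i (nd ψ p).n i') 0) := by
      intro z
      refine sat_congr M f (insert i s) hs _ _ ?_
      intro i' hi'
      by_cases h : i' = i
      · subst h
        rw [Function.update_self, Function.update_self, ← hx']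
        simp
      · have hi'' : i' ∈ s := by
          rcases hi' with h1 | h1
          · exact absurd h1 h
          · exact h1
        have h2 := henv i' hi''
        rw [Function.update_of_ne h, Function.update_of_ne h, List.getD_append]
        omega
    constructor
    · rintro ⟨z, hz⟩
      exact ⟨x ++ [z], ⟨z, rfl⟩, by simp [hx'], (key z).1 hz⟩
    · rintro ⟨y, ⟨z, rfl⟩, h1, h2⟩
      exact ⟨z, (key z).2 h2⟩

/-- PROOF. Everything is immediate from the definition of `tup` except `pax`; there
* `rel m t`: `x` has length `n`, `y` has length `a m` and `y[i] = x[env (t i)]`, so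
  `P p x ↔ M m (fun i => x.getD (env (t i)) 0) ↔ M m (fun i => y.getD i 0) ↔ R m y`;
* `eq i j`: `P p x ↔ x.getD (env i) 0 = x.getD (env j) 0`, and `env i, env j < n` by `nd_free`
  (`FreeIn s (.eq i j)` gives `i, j ∈ s`), so both are entries of `x`;
* `neg`, `conj`: `nd_snoc` and the definition of `child`;
* `ex i f`: `P p x ↔ ∃ z, Sat M f (update (fun i' => x.getD (env i') 0) i z)`; the child has
  environment `update env i n` and `(x ++ [z]).getD (update env i n i') 0` agrees with
  `update (..) i z i'` for all `i'` in `insert i s` (`s` from `nd_free`; `env i' < n` there), so use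
  `sat_congr`.
`root`: `L 0 x` means `x = []`, `nd ψ [] = ⟨0, fun _ => 0, ψ⟩`. `inf`: the tuple `List.range n`. -/
theorem tup_ax {a : ℕ → ℕ} (ψ : Fml a) (hψ : Sentence ψ) (M : Str a) (hM : M ∈ Mod ψ) :
    Ax ψ (tup ψ M) := by
  refine
    { len := fun x => ⟨x.length, rfl⟩
      len' := fun n m hnm x h => hnm (h.1.symm.trans h.2)
      emp := ⟨[], rfl⟩
      emp' := ?_
      ent := ?_
      ent' := ?_
      ent'' := ?_
      entu := ?_
      one := ?_
      extn := ?_
      ext := ?_
      extd := ?_
      rel := fun m x h => h.1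
      pln := fun p x h => h.1
      pax := fun p => tupAx_pax ψ hψ M p
      root := ?_
      inf := ?_ }
  · intro x y hx hy
    rw [List.length_eq_zero_iff.1 hx, List.length_eq_zero_iff.1 hy]
  · intro j n hjn x hx
    have hx' : x.length = n := hx
    exact ⟨[x[j]'(by omega)], by omega, rfl⟩
  · rintro j x y ⟨h, rfl⟩
    rfl
  · rintro j n hnj x y ⟨h1, h2, -⟩
    have h1' : x.length = n := h1
    omega
  · rintro j x y z ⟨h1, rfl⟩ ⟨h2, rfl⟩
    rfl
  · intro x hx
    obtain ⟨c, rfl⟩ := List.length_eq_one_iff.1 (show x.length = 1 from hx)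
    exact ⟨by simp, by simp⟩
  · intro n x y hx hy h
    have hx' : x.length = n := hx
    have hy' : y.length = n := hy
    refine List.ext_getElem (by omega) fun j h1 h2 => ?_
    obtain ⟨z, ⟨h3, h4⟩, ⟨h5, h6⟩⟩ := h j (by omega)
    have := h4.symm.trans h6
    simpa using this
  · intro n x y hx hy
    have hx' : x.length = n := hx
    obtain ⟨c, rfl⟩ := List.length_eq_one_iff.1 (show y.length = 1 from hy)
    refine ⟨x ++ [c], ⟨c, rfl⟩, by simp [hx'], ?_⟩
    subst hx'
    simp
  · intro n x y hx
    have hx' : x.length = n := hx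
    constructor
    · rintro ⟨c, rfl⟩
      refine ⟨by change (x ++ [c]).length = n + 1; simp [hx'], fun j hj => ?_⟩
      refine ⟨[x[j]'(by omega)], ⟨by omega, rfl⟩, by simp; omega, ?_⟩
      rw [List.getElem_append_left (by omega)]
    · rintro ⟨h1, h2⟩
      have h1' : y.length = n + 1 := h1
      refine ⟨y[n]'(by omega), ?_⟩
      refine List.ext_getElem (by simp; omega) fun j h3 h4 => ?_
      by_cases hj : j < n
      · obtain ⟨z, ⟨h5, h6⟩, ⟨h7, h8⟩⟩ := h2 j hj
        have h9 := h6.symm.trans h8
        rw [List.getElem_append_left (by omega)]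
        simpa using h9.symm
      · have hj' : j = n := by omega
        subst hj'
        rw [List.getElem_append_right (by omega)]
        simp [hx']
  · intro x hx
    exact ⟨hx, hM _⟩
  · intro n
    refine ⟨List.range n, by change (List.range n).length = n; simp, fun i j hij hj => ?_⟩
    rintro ⟨z, ⟨h1, h2⟩, ⟨h3, h4⟩⟩
    have := h2.symm.trans h4
    simp at this
    omega

end Pool.H17.TW
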