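import Pool.Agent.H17.TW.Free

/-!
# The structure of tuples determines the structure
-/

set_option autoImplicit false

namespace Pool.H17.TW

open Pool.H17.TV

/-- PROOF. Let `τ` be the isomorphism. `L 1` is preserved, so `τ [x] = [σ x]` for a bijection `σ` of
`ℕ`. `E j l [l[j]]` holds for `j < l.length`, so `E j (τ l) [σ l[j]]`, i.e. `τ l = l.map σ` (the
lengths agree by `L`). Then `R m l ↔ R m (τ l)` for `l = List.ofFn t` gives the claim. -/
theorem tup_inj {a : ℕ → ℕ} (ψ : Fml a) (M N : Str a) (h : TIso (tup ψ M) (tup ψ N)) :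
    SIso M N := by
  obtain ⟨τ, hL, hR, -, -, hE⟩ := h
  have hlen : ∀ x : List ℕ, (τ x).length = x.length := fun x => (hL x.length x).2 rfl
  have h1 : ∀ x : ℕ, τ [x] = [(τ [x]).getD 0 0] := by
    intro x
    obtain ⟨y, hy⟩ := List.length_eq_one_iff.1 (hlen [x])
    rw [hy]; rfl
  have h2 : ∀ y : ℕ, τ.symm [y] = [(τ.symm [y]).getD 0 0] := by
    intro y
    have h3 : (τ.symm [y]).length = 1 := by
      rw [← hlen, Equiv.apply_symm_apply]; rfl
    obtain ⟨z, hz⟩ := List.length_eq_one_iff.1 h3
    rw [hz]; rfl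
  let σ : Equiv.Perm ℕ :=
    { toFun := fun x => (τ [x]).getD 0 0
      invFun := fun y => (τ.symm [y]).getD 0 0
      left_inv := by
        intro x
        change (τ.symm [(τ [x]).getD 0 0]).getD 0 0 = x
        rw [← h1 x, Equiv.symm_apply_apply]; rfl
      right_inv := by
        intro y
        change (τ [(τ.symm [y]).getD 0 0]).getD 0 0 = y
        rw [← h2 y, Equiv.apply_symm_apply]; rfl }
  have h3 : ∀ x : ℕ, τ [x] = [σ x] := h1
  have h4 : ∀ l : List ℕ, τ l = l.map σ := by
    intro l
    apply List.ext_getElem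
    · rw [hlen]; simp
    · intro j hj1 hj2
      have hj : j < l.length := by rw [hlen] at hj1; exact hj1
      obtain ⟨h5, h6⟩ := (hE j l [l[j]]).2 ⟨hj, rfl⟩
      rw [h3] at h6
      rw [List.getElem_map]
      exact (List.singleton_inj.1 h6).symm
  refine ⟨σ, fun n t => ?_⟩
  have h5 := hR n (List.ofFn t)
  have e1 : (fun i : Fin (a n) => ((List.ofFn t).map σ).getD i 0) = fun i => σ (t i) := by
    funext i
    rw [List.getD_eq_getElem _ _ (by simp)]
    simp
  have e2 : (fun i : Fin (a n) => (List.ofFn t).getD i 0) = t := by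
    funext i
    rw [List.getD_eq_getElem _ _ (by simp)]
    simp
  simp only [tup] at h5
  rw [h4, e1, e2] at h5
  simp only [List.length_map, List.length_ofFn, true_and] at h5
  exact Bool.eq_iff_iff.2 h5

/-- PROOF. The bijection `List.map σ`. `P p`: by `sat_iso` and `sat_congr` (the set `s` of `nd_free`;
for `i ∈ s` and `l.length = n` the entry at `env i < n` of `l.map σ` is `σ` of the entry of `l`). -/
theorem tup_iso {a : ℕ → ℕ} (ψ : Fml a) (hψ : Sentence ψ) (M N : Str a) (h : SIso M N) :
    TIso (tup ψ M) (tup ψ N) := by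
  obtain ⟨σ, hσ⟩ := h
  let e : List ℕ ≃ List ℕ :=
    { toFun := List.map σ
      invFun := List.map σ.symm
      left_inv := by intro l; simp
      right_inv := by intro l; simp }
  have he : ∀ l, e l = l.map σ := fun l => rfl
  have hget : ∀ (l : List ℕ) (i : ℕ), i < l.length → (l.map σ).getD i 0 = σ (l.getD i 0) := by
    intro l i hi
    rw [List.getD_eq_getElem _ _ (by simpa using hi), List.getD_eq_getElem _ _ hi]
    simp
  refine ⟨e, ?_, ?_, ?_, ?_, ?_⟩
  · intro n l
    simp [tup, he]
  · intro m l
    simp only [tup, he, List.length_map]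
    constructor
    · rintro ⟨h1, h2⟩
      refine ⟨h1, ?_⟩
      rw [← hσ, ← h2]
      congr 1
      funext i
      rw [hget l i (by rw [h1]; exact i.2)]
    · rintro ⟨h1, h2⟩
      refine ⟨h1, ?_⟩
      rw [← hσ] at h2
      rw [← h2]
      congr 1
      funext i
      rw [hget l i (by rw [h1]; exact i.2)]
  · intro p l
    simp only [tup, he, List.length_map]
    apply and_congr_right
    intro h1
    obtain ⟨s, hs1, hs2⟩ := nd_free ψ hψ p
    rw [← sat_iso M N σ hσ (nd ψ p).f (fun i => l.getD ((nd ψ p).env i) 0)]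
    apply sat_congr N _ s hs1
    intro i hi
    exact hget l _ (by rw [h1]; exact hs2 i hi)
  · intro l l'
    simp only [tup, he]
    constructor
    · rintro ⟨x, hx⟩
      refine ⟨σ.symm x, ?_⟩
      have := congrArg (List.map σ.symm) hx
      simpa using this
    · rintro ⟨x, rfl⟩
      exact ⟨σ x, by simp⟩
  · intro j l l'
    simp only [tup, he, List.length_map, List.getElem_map]
    constructor
    · rintro ⟨h1, h2⟩
      refine ⟨h1, ?_⟩
      have := congrArg (List.map σ.symm) h2
      simpa using this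
    · rintro ⟨h1, h2⟩
      exact ⟨h1, by rw [h2]; rfl⟩

end Pool.H17.TW
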