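import Pool.Agent.H17.TW.Form2
import Pool.Agent.H17.TW.Code
import Pool.Agent.H17.TW.AxIso
import Pool.Agent.H17.TW.TupAx
import Pool.Agent.H17.TW.TupInj
import Pool.Agent.H17.TW.DecB
import Pool.Agent.H17.TW.DecM
import Pool.Agent.H17.TW.Fam

/-!
# The reduction for sentences
-/

set_option autoImplicit false

namespace Pool.H17.TW

open Pool.H17.TV

/-- a bijection between finite lists and numbers -/
noncomputable def eL : List ℕ ≃ ℕ := Denumerable.eqv _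

/-- the code of a model -/
noncomputable def code {a : ℕ → ℕ} (ψ : Fml a) (M : Str a) : Str aS :=
  toStr ((tup ψ M).map eL)

theorem code_iso {a : ℕ → ℕ} (ψ : Fml a) (M : Str a) : TIso (tup ψ M) (ofStr (code ψ M)) := by
  rw [code, ofStr_toStr]
  exact tiso_map eL _

theorem code_ax {a : ℕ → ℕ} (ψ : Fml a) (hψ : Sentence ψ) (M : Str a) (hM : M ∈ Mod ψ) :
    Ax ψ (ofStr (code ψ M)) :=
  ax_iso ψ (code_iso ψ M) (tup_ax ψ hψ M hM)

theorem code_inj {a : ℕ → ℕ} (ψ : Fml a) (M N : Str a) (h : SIso (code ψ M) (code ψ N)) :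
    SIso M N :=
  tup_inj ψ M N (tiso_trans (code_iso ψ M) (tiso_trans ((siso_iff _ _).1 h)
    (tiso_symm (code_iso ψ N))))

theorem dec_inj {a : ℕ → ℕ} (ψ : Fml a) (hψ : Sentence ψ) (S S' : Str aS) (hS : Ax ψ (ofStr S))
    (hS' : Ax ψ (ofStr S')) (h : SIso (dec a (ofStr S)) (dec a (ofStr S'))) : SIso S S' := by
  have h1 := dec_iso ψ hψ _ hS
  have h2 := dec_iso ψ hψ _ hS'
  exact (siso_iff _ _).2 (tiso_trans (tiso_symm h1) (tiso_trans (tup_iso ψ hψ _ _ h) h2))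

theorem reduce_few {a : ℕ → ℕ} (ψ : Fml a) (hψ : Sentence ψ) (C : Set (Str aS)) (hC : C.Countable)
    (h : ∀ S, Ax ψ (ofStr S) → ∃ c ∈ C, SIso S c) :
    ∃ C' : Set (Str a), C'.Countable ∧ ∀ M ∈ Mod ψ, ∃ c ∈ C', SIso M c := by
  classical
  have key : ∀ c : {c : Str aS // c ∈ C ∧ ∃ M ∈ Mod ψ, SIso (code ψ M) c},
      ∃ M ∈ Mod ψ, SIso (code ψ M) c.1 := fun c => c.2.2
  choose m hm hmc using key
  have hcount : Countable {c : Str aS // c ∈ C ∧ ∃ M ∈ Mod ψ, SIso (code ψ M) c} :=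
    (hC.mono (fun c hc => hc.1)).to_subtype
  refine ⟨Set.range m, Set.countable_range m, fun M hM => ?_⟩
  obtain ⟨c, hc, hi⟩ := h (code ψ M) (code_ax ψ hψ M hM)
  refine ⟨m ⟨c, hc, M, hM, hi⟩, ⟨_, rfl⟩, ?_⟩
  exact code_inj ψ _ _ (siso_trans hi (siso_symm (hmc ⟨c, hc, M, hM, hi⟩)))

/-- PROOF. `Str aS` is Polish; by `Perfect.exists_nat_bool_injection` (for a compatible complete
metric) there is a continuous injection `f` of the Cantor space into `P`. Apply `dich_of_meas` to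
`fun s => dec a (ofStr (f s))`, with `dec_meas`, `dec_mod` and `dec_inj`. -/
theorem reduce_perf {a : ℕ → ℕ} (ψ : Fml a) (hψ : Sentence ψ) (P : Set (Str aS)) (hne : P.Nonempty)
    (hP : Perfect P) (hsub : ∀ S ∈ P, Ax ψ (ofStr S))
    (hiso : ∀ x ∈ P, ∀ y ∈ P, SIso x y → x = y) : Dich (Mod ψ) := by
  have hpol : TopologicalSpace.IsCompletelyMetrizableSpace (Str aS) := by
    unfold Str
    infer_instance
  let hm := TopologicalSpace.upgradeIsCompletelyMetrizable (Str aS)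
  obtain ⟨f, hf, hfc, hfi⟩ := Perfect.exists_nat_bool_injection (α := Str aS) hP hne
  have hb := borel_str aS
  have hfm : Measurable f := by
    exact hfc.measurable
  refine dich_of_meas (Mod ψ) (fun s => dec a (ofStr (f s))) ((dec_meas a).comp hfm) ?_ ?_
  · intro s
    exact dec_mod ψ hψ _ (hsub _ (hf ⟨s, rfl⟩))
  · intro s s' h
    have := dec_inj ψ hψ _ _ (hsub _ (hf ⟨s, rfl⟩)) (hsub _ (hf ⟨s', rfl⟩)) h
    exact hfi (hiso _ (hf ⟨s, rfl⟩) _ (hf ⟨s', rfl⟩) this)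

theorem reduce {a : ℕ → ℕ}
    (H : ∀ φ : Fml aS, Sentence φ → VarsLt 3 φ → QRLe 3 φ → Dich (Mod φ))
    (ψ : Fml a) (hψ : Sentence ψ) : Dich (Mod ψ) := by
  obtain ⟨φ, h1, h2, h3, hφ⟩ := axF_exists ψ
  rcases H φ h1 h2 h3 with ⟨C, hC, h⟩ | ⟨P, hne, hP, hsub, hiso⟩
  · left
    obtain ⟨C', hC', h'⟩ := reduce_few ψ hψ C hC (fun S hS => h S ((hφ S).2 hS))
    exact ⟨C', hC', h'⟩
  · exact reduce_perf ψ hψ P hne hP (fun S hS => (hφ S).1 (hsub hS)) hiso

end Pool.H17.TW
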